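import Pool.Agent.Lib.MP_e12dda_al.States

set_option autoImplicit false

namespace Pool.Agent.Lib.MP_e12dda_al

open Cardinal Module

section stepB

variable {F K : Type} [Field F] [Field K] [Algebra F K] {V : Type} [AddCommGroup V] [Module K V]
  [Module F V] [IsScalarTower F K V] {J S : Type}

/-- the operator attached to a formal combination of words -/
noncomputable def Rop {L : Type} (op : L → Module.End K V) :
    (List L →₀ K) →ₗ[K] Module.End K V :=
  Finsupp.linearCombination K (fun r : List L => (r.map op).prod)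

theorem Rop_single {L : Type} (op : L → Module.End K V) (r : List L) (k : K) :
    Rop op (Finsupp.single r k) = k • (r.map op).prod := by
  simp [Rop]

theorem Ev_toSpan {L : Type} (op : L → Module.End K V) (v : V) (z : List L →₀ K) :
    Ev op (LinearMap.toSpanSingleton K V v) z = Rop op z v := by
  classical
  induction z using Finsupp.induction_linear with
  | zero => simp
  | add f g hf hg => rw [map_add, map_add, hf, hg]; rfl
  | single a b => rw [Ev_single, Rop_single]; simp

theorem Rop_mem {L : Type} (op : L → Module.End K V) (D : Submodule K V)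
    (hD : ∀ o, ∀ d ∈ D, op o d ∈ D) (z : List L →₀ K) (d : V) (hd : d ∈ D) :
    Rop op z d ∈ D := by
  rw [← Ev_toSpan]
  refine Ev_mem op _ D ?_ hD z
  intro c
  simpa using D.smul_mem c hd

theorem key_vector {κ : Basis J F K} {lam : S → Module.End K V} {Adm : Module.End K V → Prop}
    {E : Set V} {σ : St F K V S} (hσ : Good κ lam Adm E σ) (hlam : IndepOps lam)
    (D : Submodule K V) (hD1 : ∀ o ∈ σ.O, ∀ d ∈ D, lam o.1 d ∈ D)
    (hD2 : ∀ o ∈ σ.O, ∀ d ∈ D, o.2 d ∈ D)
    (hD3 : ∀ o ∈ σ.O, ∀ y, o.2 y - lam o.1 y ∈ D)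
    (s : S) (hs : ∀ o ∈ σ.O, s ≠ o.1) (L' : Submodule K V) (hL1 : ∀ y, lam s y ∈ L')
    (hL2 : ∀ o ∈ σ.O, ∀ y ∈ L', lam o.1 y ∈ L') (hdis : Disjoint L' D)
    (e0 : V) (he0 : e0 ≠ 0) (y : V) (hy : y ∈ D) :
    ∀ z : List σ.O →₀ K, Ev (fun o : σ.O => (o : S × Module.End K V).2)
      (LinearMap.toSpanSingleton K V (lam s e0 + y)) z ∈ D → z = 0 := by
  classical
  have hEvM : ∀ z, Ev (fun o : σ.O => (o : S × Module.End K V).2)
      (LinearMap.toSpanSingleton K V (lam s e0 + y)) z ∈ D ⊔ L' := by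
    refine Ev_mem _ _ (D ⊔ L') ?_ ?_
    · intro c
      rw [LinearMap.toSpanSingleton_apply, smul_add, add_comm]
      exact Submodule.add_mem_sup (D.smul_mem _ hy) (L'.smul_mem _ (hL1 _))
    · rintro ⟨o, ho⟩ v hv
      obtain ⟨d, hd, l, hl, rfl⟩ := Submodule.mem_sup.mp hv
      have : o.2 (d + l) = (o.2 d + (o.2 l - lam o.1 l)) + lam o.1 l := by
        simp only [map_add]; abel
      simp only
      rw [this]
      exact Submodule.add_mem_sup (D.add_mem (hD2 o ho d hd) (hD3 o ho l)) (hL2 o ho l hl)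
  apply key
  intro k w hw hkw
  have h1 : lam s (k • e0) + w.sum (fun o v => (o : S × Module.End K V).2 v) ∈ D := by
    have h2 : (LinearMap.toSpanSingleton K V (lam s e0 + y)) k +
        w.sum (fun o v => (o : S × Module.End K V).2 v) =
        (lam s (k • e0) + w.sum (fun o v => (o : S × Module.End K V).2 v)) + k • y := by
      rw [LinearMap.toSpanSingleton_apply, smul_add, map_smul]; abel
    rw [h2] at hkw
    exact (Submodule.add_mem_iff_left _ (D.smul_mem _ hy)).mp hkw
  obtain ⟨h4, h5⟩ := core hσ hlam D hD1 hD3 s hs L' hL1 hL2 hdis _ w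
    (fun o => by obtain ⟨z, hz⟩ := hw o; rw [hz]; exact hEvM z) h1
  refine ⟨h5, fun _ => ?_⟩
  rcases smul_eq_zero.mp h4 with h | h
  · exact h
  · exact absurd h he0

theorem stepB {κ : Basis J F K} {lam : S → Module.End K V} {Adm : Module.End K V → Prop}
    {E : Set V} {σ : St F K V S} (hσ : Good κ lam Adm E σ) (hlam : IndepOps lam)
    (c : Cardinal.{0}) (hc : ℵ₀ ≤ c) (hcS : c < #S) (hsz : Sz σ c) (hF : #F ≤ ℵ₀)
    (hirr : ∃ t : K, t ∉ Set.range (algebraMap F K)) (e0 : V) (he0 : e0 ≠ 0)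
    (φ : Module.End K V) :
    ∃ σ' : St F K V S, Good κ lam Adm E σ' ∧ σ ≤ σ' ∧ Sz σ' c ∧
      ((∃ v ∈ σ'.H, φ v ∈ σ'.G) ∨
        (∃ r ∈ Algebra.adjoin F (Prod.snd '' σ'.O), ∀ e ∈ E, φ e = r e)) := by
  classical
  obtain ⟨D, hDH, hDG, -, hDφ, hD1, hD2, hD3, hDrk⟩ := setup hσ c hc hsz {φ}
    (by rw [mk_singleton]; exact one_le_aleph0.trans hc) ∅ (by simp)
  obtain ⟨s, hsU, L', hL1, hL2, hdis⟩ := exists_fresh lam hlam (Prod.fst '' σ.O) D c hc
    (mk_image_le.trans hsz.1) hDrk hcS
  have hs : ∀ o ∈ σ.O, s ≠ o.1 := fun o ho h => hsU ⟨o, ho, h.symm⟩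
  have hL2' : ∀ o ∈ σ.O, ∀ y ∈ L', lam o.1 y ∈ L' := fun o ho => hL2 _ ⟨o, ho, rfl⟩
  let op : σ.O → Module.End K V := fun o => (o : S × Module.End K V).2
  let root : V → (K →ₗ[K] V) := fun y => LinearMap.toSpanSingleton K V (lam s e0 + y)
  let CF : Submodule F K := LinearMap.range (Algebra.linearMap F K)
  have hkey : ∀ y ∈ D, ∀ z : List σ.O →₀ K, Ev op (root y) z ∈ D → z = 0 := fun y hy =>
    key_vector hσ hlam D hD1 hD2 hD3 s hs L' hL1 hL2' hdis e0 he0 y hy
  have hEv : ∀ y z, Ev op (root y) z = Rop op z (lam s e0 + y) := fun y z => Ev_toSpan op _ z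
  by_cases hcase : ∀ y ∈ D, φ (lam s e0 + y) ∈ σ.H ⊔ Wsub op (root y) CF
  · -- `φ` is a combination of words
    refine ⟨σ, hσ, le_refl _, hsz, Or.inr ?_⟩
    have hcase' : ∀ y ∈ D, ∃ h ∈ σ.H, ∃ z : List σ.O →₀ K, (∀ r, z r ∈ CF) ∧
        φ (lam s e0 + y) = h + Rop op z (lam s e0 + y) := by
      intro y hy
      obtain ⟨a, ha, b, ⟨w, hw, rfl⟩, hab⟩ := Submodule.mem_sup.mp (hcase y hy)
      exact ⟨a, ha, w, hw, by rw [← hab, hEv]⟩
    obtain ⟨h0, hh0, z0, hz0, e1⟩ := hcase' 0 D.zero_mem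
    rw [add_zero] at e1
    have hmain : ∀ y ∈ D, φ y - Rop op z0 y ∈ σ.H := by
      intro y hy
      obtain ⟨h, hh, z, hz, e2⟩ := hcase' y hy
      have e3 : φ y - h + h0 - Rop op z y = Rop op (z - z0) (lam s e0) := by
        have e4 : φ y = φ (lam s e0 + y) - φ (lam s e0) := by rw [map_add]; abel
        rw [e4, e2, e1, map_sub, map_add]
        simp only [LinearMap.sub_apply]
        abel
      have e5 : z - z0 = 0 := by
        apply hkey 0 D.zero_mem
        rw [hEv, add_zero, ← e3]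
        refine D.sub_mem (D.add_mem (D.sub_mem ?_ (hDH _ hh)) (hDH _ hh0)) ?_
        · exact hDφ φ rfl y hy
        · exact Rop_mem op D (fun o d hd => hD2 o o.2 d hd) z y hy
      rw [e5, map_zero, LinearMap.zero_apply] at e3
      have e6 : z = z0 := sub_eq_zero.mp e5
      rw [e6] at e3
      have : φ y - Rop op z0 y = h - h0 := by
        have := e3
        rw [sub_eq_zero] at this
        rw [← this]; abel
      rw [this]
      exact σ.H.sub_mem hh hh0
    obtain ⟨t, ht⟩ := hirr
    have hzero : ∀ y ∈ D, φ y - Rop op z0 y = 0 := by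
      intro y hy
      refine LD_irr κ σ.H hσ.ld _ (hmain y hy) t ht ?_
      have := hmain (t • y) (D.smul_mem t hy)
      rwa [map_smul, map_smul, ← smul_sub] at this
    refine ⟨Rop op z0, ?_, ?_⟩
    · rw [Rop, Finsupp.linearCombination_apply, Finsupp.sum]
      refine Subalgebra.sum_mem _ ?_
      intro r _
      obtain ⟨q, hq⟩ := hz0 r
      rw [← hq, Algebra.linearMap_apply, algebraMap_smul]
      refine Subalgebra.smul_mem _ ?_ q
      refine Subalgebra.list_prod_mem _ ?_
      intro x hx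
      obtain ⟨o, _, rfl⟩ := List.mem_map.mp hx
      exact Algebra.subset_adjoin ⟨o, o.2, rfl⟩
    · intro e he
      exact sub_eq_zero.mp (hzero e (hDH _ (hσ.base he)))
  · push Not at hcase
    obtain ⟨y, hy, hφy⟩ := hcase
    refine ⟨⟨σ.O, σ.H ⊔ Wsub op (root y) CF, insert (φ (lam s e0 + y)) σ.G⟩,
      ⟨hσ.func, hσ.adm, hσ.rk, ?_, ?_, ?_, ?_⟩, ⟨subset_rfl, le_sup_left, Set.subset_insert _ _⟩,
      ⟨hsz.1, ?_, ?_⟩, Or.inl ⟨lam s e0 + y, ?_, Set.mem_insert _ _⟩⟩
    · intro o ho h hh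
      obtain ⟨u, hu, w, hw, rfl⟩ := Submodule.mem_sup.mp hh
      have h1 : o.2 (u + w) = o.2 u + o.2 w := map_add _ _ _
      rw [h1]
      refine Submodule.add_mem_sup (hσ.cl o ho u hu) ?_
      exact op_mem_Wsub op (root y) CF ⟨o, ho⟩ w hw
    · exact LD_sup κ op (root y) CF (LD_range κ) σ.H hσ.ld D hDH (hkey y hy)
    · intro g hg
      rcases hg with rfl | hg
      · exact hφy
      · exact notMem_sup op (root y) CF σ.H D hDH (hkey y hy) g (hDG g hg) (hσ.disj g hg)
    · exact hσ.base.trans (fun x hx => Submodule.mem_sup_left hx)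
    · refine mk_sup_le op (root y) CF σ.H c hc hsz.2.1 hsz.1 ?_
      refine le_trans ?_ (hF.trans hc)
      exact mk_le_of_surjective (f := fun q : F => (⟨algebraMap F K q, ⟨q, rfl⟩⟩ : CF)) (by
        rintro ⟨_, ⟨q, rfl⟩⟩
        exact ⟨q, rfl⟩)
    · refine mk_insert_le.trans ?_
      exact (add_le_add hsz.2.2 ((one_le_aleph0).trans hc)).trans (add_eq_self hc).le
    · refine Submodule.mem_sup_right ?_
      have : lam s e0 + y = root y 1 := by simp [root]
      rw [this]
      exact root_mem_Wsub op (root y) CF 1 ⟨1, by simp⟩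

/-- coefficients of an element of the free algebra, indexed by lists -/
def toL {L : Type} (z : MonoidAlgebra K (FreeMonoid L)) : List L →₀ K := z.coeff

theorem unit_scalar {κ : Basis J F K} {lam : S → Module.End K V} {Adm : Module.End K V → Prop}
    {E : Set V} {σ : St F K V S} (hσ : Good κ lam Adm E σ) (hlam : IndepOps lam)
    (c : Cardinal.{0}) (hc : ℵ₀ ≤ c) (hcS : c < #S) (hsz : Sz σ c) (e0 : V) (he0 : e0 ≠ 0)
    (r r' : Module.End K V) (hr : r ∈ Algebra.adjoin F (Prod.snd '' σ.O))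
    (hr' : r' ∈ Algebra.adjoin F (Prod.snd '' σ.O)) (hrr : r * r' = 1) :
    ∃ k : K, ∀ v, r v = k • v := by
  classical
  obtain ⟨D, hDH, hDG, -, -, hD1, hD2, hD3, hDrk⟩ := setup hσ c hc hsz ∅ (by simp) ∅ (by simp)
  obtain ⟨s, hsU, L', hL1, hL2, hdis⟩ := exists_fresh lam hlam (Prod.fst '' σ.O) D c hc
    (mk_image_le.trans hsz.1) hDrk hcS
  have hs : ∀ o ∈ σ.O, s ≠ o.1 := fun o ho h => hsU ⟨o, ho, h.symm⟩
  have hL2' : ∀ o ∈ σ.O, ∀ y ∈ L', lam o.1 y ∈ L' := fun o ho => hL2 _ ⟨o, ho, rfl⟩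
  let op : σ.O → Module.End K V := fun o => (o : S × Module.End K V).2
  have hkey := key_vector hσ hlam D hD1 hD2 hD3 s hs L' hL1 hL2' hdis e0 he0 0 D.zero_mem
  let Φ : MonoidAlgebra K (FreeMonoid σ.O) →ₐ[K] Module.End K V :=
    MonoidAlgebra.lift K (Module.End K V) (FreeMonoid σ.O) (FreeMonoid.lift op)
  have hΦ : ∀ z : MonoidAlgebra K (FreeMonoid σ.O), Φ z = Rop op (toL z) := by
    intro z
    have h1 : Φ z = z.coeff.sum (fun a b => b • (FreeMonoid.lift op a)) :=
      MonoidAlgebra.lift_apply _ _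
    rw [h1]
    simp only [FreeMonoid.lift_apply]
    rfl
  have hinj : ∀ z, Φ z = 0 → z = 0 := by
    intro z hz
    rw [hΦ] at hz
    have : toL z = 0 := by
      apply hkey
      rw [Ev_toSpan, hz, LinearMap.zero_apply]
      exact D.zero_mem
    have h2 : z.coeff = 0 := this
    exact MonoidAlgebra.coeff_injective (by rw [h2]; rfl)
  have hrange : ∀ x ∈ Algebra.adjoin F (Prod.snd '' σ.O), ∃ z, Φ z = x := by
    intro x hx
    induction hx using Algebra.adjoin_induction with
    | mem x hx =>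
      obtain ⟨o, ho, rfl⟩ := hx
      refine ⟨MonoidAlgebra.single (FreeMonoid.of ⟨o, ho⟩) 1, ?_⟩
      simp [Φ, op]
    | algebraMap q =>
      refine ⟨MonoidAlgebra.single 1 (algebraMap F K q), ?_⟩
      simp only [Φ]
      rw [MonoidAlgebra.lift_single, map_one, algebraMap_smul, Algebra.algebraMap_eq_smul_one]
    | add x y _ _ hx hy =>
      obtain ⟨z, rfl⟩ := hx
      obtain ⟨w, rfl⟩ := hy
      exact ⟨z + w, map_add _ _ _⟩
    | mul x y _ _ hx hy =>
      obtain ⟨z, rfl⟩ := hx
      obtain ⟨w, rfl⟩ := hy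
      exact ⟨z * w, map_mul _ _ _⟩
  obtain ⟨z, rfl⟩ := hrange r hr
  obtain ⟨z', rfl⟩ := hrange r' hr'
  have hzz : z * z' = 1 := by
    rw [← sub_eq_zero]
    apply hinj
    rw [map_sub, map_mul, hrr, map_one, sub_self]
  have hz0 : z.coeff ≠ 0 := by
    intro h
    have : z = 0 := MonoidAlgebra.coeff_injective (by rw [h]; rfl)
    rw [this, zero_mul] at hzz
    exact zero_ne_one hzz
  have hz0' : z'.coeff ≠ 0 := by
    intro h
    have : z' = 0 := MonoidAlgebra.coeff_injective (by rw [h]; rfl)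
    rw [this, mul_zero] at hzz
    exact zero_ne_one hzz
  obtain ⟨w, hw, hwmax⟩ := Finset.exists_max_image z.coeff.support
    (fun w : FreeMonoid σ.O => w.toList.length) (Finsupp.support_nonempty_iff.mpr hz0)
  obtain ⟨w', hw', hwmax'⟩ := Finset.exists_max_image z'.coeff.support
    (fun w : FreeMonoid σ.O => w.toList.length) (Finsupp.support_nonempty_iff.mpr hz0')
  have huniq : UniqueMul z.coeff.support z'.coeff.support w w' := by
    intro a b ha hb hab
    have h1 : a.toList ++ b.toList = w.toList ++ w'.toList := by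
      rw [← FreeMonoid.toList_mul, ← FreeMonoid.toList_mul, hab]
    have h2 := hwmax a ha
    have h3 := hwmax' b hb
    have h4 := congrArg List.length h1
    rw [List.length_append, List.length_append] at h4
    have h5 : a.toList.length = w.toList.length := by omega
    obtain ⟨h6, h7⟩ := List.append_inj h1 h5
    exact ⟨FreeMonoid.toList.injective h6, FreeMonoid.toList.injective h7⟩
  have hcoef := MonoidAlgebra.coeff_mul_mul_of_uniqueMul huniq
  rw [hzz] at hcoef
  have hne : z.coeff w * z'.coeff w' ≠ 0 :=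
    mul_ne_zero (Finsupp.mem_support_iff.mp hw) (Finsupp.mem_support_iff.mp hw')
  have hww : w * w' = 1 := by
    by_contra hcon
    rw [← hcoef, MonoidAlgebra.one_def, MonoidAlgebra.coeff_single, Finsupp.single_apply,
      if_neg (Ne.symm hcon)] at hne
    exact hne rfl
  have hw1 : w.toList.length = 0 := by
    have := congrArg (fun x : FreeMonoid σ.O => x.toList.length) hww
    simp only [FreeMonoid.toList_mul, List.length_append, FreeMonoid.toList_one,
      List.length_nil] at this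
    omega
  have hsupp : ∀ a ∈ z.coeff.support, a = 1 := by
    intro a ha
    have := hwmax a ha
    apply FreeMonoid.toList.injective
    rw [FreeMonoid.toList_one]
    exact List.eq_nil_of_length_eq_zero (by omega)
  have hzs : z = MonoidAlgebra.single 1 (z.coeff 1) := by
    apply MonoidAlgebra.coeff_injective
    rw [MonoidAlgebra.coeff_single]
    ext a
    rw [Finsupp.single_apply]
    split_ifs with h
    · rw [← h]
    · by_contra hne
      exact h (hsupp a (Finsupp.mem_support_iff.mpr hne)).symm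
  refine ⟨z.coeff 1, fun v => ?_⟩
  have h9 : Φ z = z.coeff 1 • (1 : Module.End K V) := by
    conv_lhs => rw [hzs]
    simp only [Φ]
    rw [MonoidAlgebra.lift_single, (FreeMonoid.lift op).map_one]
  rw [h9]
  simp

end stepB

end Pool.Agent.Lib.MP_e12dda_al
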