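import Pool.Agent.Lib.MP_e12dda_al.StepA
import Pool.Agent.Lib.MP_e12dda_al.StepB

set_option autoImplicit false

namespace Pool.Agent.Lib.MP_e12dda_al

open Cardinal Module

theorem recursion {P : Type} [Preorder P] (sz : P → Cardinal.{0} → Prop)
    (hmono : ∀ p c c', c ≤ c' → sz p c → sz p c')
    {I : Type} [LinearOrder I] [WellFoundedLT I] (hI : ∀ i : I, #(Set.Iio i) < 𝔠)
    (T : I → P → Prop)
    (hunion : ∀ (C : Set P) (c : Cardinal.{0}), ℵ₀ ≤ c → c < 𝔠 → #C ≤ c → IsChain (· ≤ ·) C →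
      (∀ p ∈ C, sz p c) → ∃ q, sz q c ∧ ∀ p ∈ C, p ≤ q)
    (hstep : ∀ i c, ℵ₀ ≤ c → c < 𝔠 → ∀ p, sz p c → ∃ q, p ≤ q ∧ sz q c ∧ T i q) :
    ∃ f : I → P, Monotone f ∧ (∀ i, T i (f i)) ∧
      ∀ i, ∃ c, ℵ₀ ≤ c ∧ c < 𝔠 ∧ sz (f i) c := by
  classical
  obtain ⟨p0, -, -⟩ := hunion ∅ ℵ₀ le_rfl aleph0_lt_continuum (by simp) (by simp) (by simp)
  let κ : I → Cardinal.{0} := fun i => max ℵ₀ #(Set.Iio i)
  have hκ1 : ∀ i, ℵ₀ ≤ κ i := fun i => le_max_left _ _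
  have hκ2 : ∀ i, κ i < 𝔠 := fun i => max_lt aleph0_lt_continuum (hI i)
  have hκ3 : ∀ i j, j ≤ i → κ j ≤ κ i := fun i j hij =>
    max_le_max le_rfl (mk_le_mk_of_subset (Set.Iio_subset_Iio hij))
  let F : (i : I) → ((j : I) → j < i → P) → P := fun i ih =>
    if h : ∃ q, sz q (κ i) ∧ T i q ∧ ∀ j (hj : j < i), ih j hj ≤ q then h.choose else p0
  let f : I → P := WellFounded.fix (r := fun a b : I => a < b) wellFounded_lt F
  have hfix : ∀ i, f i = F i (fun j _ => f j) := fun i => WellFounded.fix_eq _ _ _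
  have hf : ∀ i, (∃ q, sz q (κ i) ∧ T i q ∧ ∀ j, j < i → f j ≤ q) →
      sz (f i) (κ i) ∧ T i (f i) ∧ ∀ j, j < i → f j ≤ f i := by
    intro i h
    have h1 : f i = h.choose := by
      rw [hfix]
      simp only [F]
      rw [dif_pos h]
    rw [h1]
    exact h.choose_spec
  have main : ∀ i, sz (f i) (κ i) ∧ T i (f i) ∧ ∀ j, j < i → f j ≤ f i := by
    intro i
    induction i using WellFoundedLT.induction with
    | ind i ih =>
      apply hf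
      have hchain : IsChain (· ≤ ·) (f '' Set.Iio i) := by
        rintro _ ⟨a, ha, rfl⟩ _ ⟨b, hb, rfl⟩ hne
        rcases lt_trichotomy a b with h | h | h
        · exact Or.inl ((ih b hb).2.2 a h)
        · exact absurd (by rw [h]) hne
        · exact Or.inr ((ih a ha).2.2 b h)
      obtain ⟨p, hp1, hp2⟩ := hunion (f '' Set.Iio i) (κ i) (hκ1 i) (hκ2 i)
        (mk_image_le.trans (le_max_right _ _)) hchain (by
          rintro _ ⟨a, ha, rfl⟩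
          exact hmono _ _ _ (hκ3 i a (le_of_lt ha)) (ih a ha).1)
      obtain ⟨q, hq1, hq2, hq3⟩ := hstep i (κ i) (hκ1 i) (hκ2 i) p hp1
      exact ⟨q, hq2, hq3, fun j hj => (hp2 _ ⟨j, hj, rfl⟩).trans hq1⟩
  refine ⟨f, ?_, fun i => (main i).2.1, fun i => ⟨κ i, hκ1 i, hκ2 i, (main i).1⟩⟩
  intro a b hab
  rcases eq_or_lt_of_le hab with h | h
  · rw [h]
  · exact (main b).2.2 a h

section union

variable {F K : Type} [Field F] [Field K] [Algebra F K] {V : Type} [AddCommGroup V] [Module K V]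
  [Module F V] [IsScalarTower F K V] {J S : Type}

/-- union of a set of states -/
def unionSt (C : Set (St F K V S)) : St F K V S :=
  ⟨⋃ σ ∈ C, σ.O, sSup (St.H '' C), ⋃ σ ∈ C, σ.G⟩

omit [IsScalarTower F K V] in
theorem mem_unionSt_H {C : Set (St F K V S)} (hC : IsChain (· ≤ ·) C) (hne : C.Nonempty) (x : V) :
    x ∈ (unionSt C).H ↔ ∃ σ ∈ C, x ∈ σ.H := by
  simp only [unionSt]
  rw [Submodule.mem_sSup_of_directed (hne.image _)]
  · constructor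
    · rintro ⟨_, ⟨σ, hσ, rfl⟩, hx⟩; exact ⟨σ, hσ, hx⟩
    · rintro ⟨σ, hσ, hx⟩; exact ⟨σ.H, ⟨σ, hσ, rfl⟩, hx⟩
  · rintro _ ⟨σ, hσ, rfl⟩ _ ⟨τ, hτ, rfl⟩
    obtain ⟨υ, hυ, h1, h2⟩ := hC.directedOn σ hσ τ hτ
    exact ⟨υ.H, ⟨υ, hυ, rfl⟩, h1.2.1, h2.2.1⟩

omit [IsScalarTower F K V] in
theorem unionSt_good {κ : Basis J F K} {lam : S → Module.End K V} {Adm : Module.End K V → Prop}
    {E : Set V} (C : Set (St F K V S)) (hC : IsChain (· ≤ ·) C) (hne : C.Nonempty)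
    (hg : ∀ σ ∈ C, Good κ lam Adm E σ) : Good κ lam Adm E (unionSt C) := by
  classical
  have hO : ∀ o, o ∈ (unionSt C).O ↔ ∃ σ ∈ C, o ∈ σ.O := by
    intro o; simp [unionSt]
  have hG : ∀ o, o ∈ (unionSt C).G ↔ ∃ σ ∈ C, o ∈ σ.G := by
    intro o; simp [unionSt]
  have hdir := hC.directedOn
  refine ⟨?_, ?_, ?_, ?_, ?_, ?_, ?_⟩
  · intro o ho o' ho' hoo
    obtain ⟨σ, hσ, h1⟩ := (hO o).mp ho
    obtain ⟨τ, hτ, h2⟩ := (hO o').mp ho'
    obtain ⟨υ, hυ, h3, h4⟩ := hdir σ hσ τ hτ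
    exact (hg υ hυ).func o (h3.1 h1) o' (h4.1 h2) hoo
  · intro o ho
    obtain ⟨σ, hσ, h1⟩ := (hO o).mp ho
    exact (hg σ hσ).adm o h1
  · intro o ho
    obtain ⟨σ, hσ, h1⟩ := (hO o).mp ho
    exact (hg σ hσ).rk o h1
  · intro o ho h hh
    obtain ⟨σ, hσ, h1⟩ := (hO o).mp ho
    obtain ⟨τ, hτ, h2⟩ := (mem_unionSt_H hC hne h).mp hh
    obtain ⟨υ, hυ, h3, h4⟩ := hdir σ hσ τ hτ
    exact (mem_unionSt_H hC hne _).mpr ⟨υ, hυ, (hg υ hυ).cl o (h3.1 h1) h (h4.2.1 h2)⟩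
  · intro z hz h
    have hfin : ∀ s : Finset J, ∃ σ ∈ C, ∀ j ∈ s, z j ∈ σ.H := by
      intro s
      induction s using Finset.induction_on with
      | empty => obtain ⟨σ, hσ⟩ := hne; exact ⟨σ, hσ, by simp⟩
      | insert a s _ ih =>
        obtain ⟨σ, hσ, h1⟩ := ih
        obtain ⟨τ, hτ, h2⟩ := (mem_unionSt_H hC hne (z a)).mp (hz a)
        obtain ⟨υ, hυ, h3, h4⟩ := hdir σ hσ τ hτ
        refine ⟨υ, hυ, ?_⟩
        intro j hj
        rcases Finset.mem_insert.mp hj with rfl | hj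
        · exact h4.2.1 h2
        · exact h3.2.1 (h1 j hj)
    obtain ⟨σ, hσ, h1⟩ := hfin z.support
    refine (hg σ hσ).ld z ?_ h
    intro j
    by_cases hj : j ∈ z.support
    · exact h1 j hj
    · rw [Finsupp.notMem_support_iff.mp hj]; exact σ.H.zero_mem
  · intro g hgm hgH
    obtain ⟨σ, hσ, h1⟩ := (hG g).mp hgm
    obtain ⟨τ, hτ, h2⟩ := (mem_unionSt_H hC hne g).mp hgH
    obtain ⟨υ, hυ, h3, h4⟩ := hdir σ hσ τ hτ
    exact (hg υ hυ).disj g (h3.2.2 h1) (h4.2.1 h2)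
  · intro e he
    obtain ⟨σ, hσ⟩ := hne
    exact (mem_unionSt_H hC ⟨σ, hσ⟩ e).mpr ⟨σ, hσ, (hg σ hσ).base he⟩

omit [IsScalarTower F K V] in
theorem unionSt_le (C : Set (St F K V S)) (σ : St F K V S) (hσ : σ ∈ C) : σ ≤ unionSt C := by
  refine ⟨?_, ?_, ?_⟩
  · exact Set.subset_biUnion_of_mem (u := fun σ : St F K V S => σ.O) hσ
  · exact le_sSup ⟨σ, hσ, rfl⟩
  · exact Set.subset_biUnion_of_mem (u := fun σ : St F K V S => σ.G) hσ

theorem mk_biUnion_le' {ι α : Type} (C : Set ι) (A : ι → Set α) (c : Cardinal.{0}) (hc : ℵ₀ ≤ c)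
    (hC : #C ≤ c) (hA : ∀ i ∈ C, #(A i) ≤ c) : #(⋃ i ∈ C, A i : Set α) ≤ c := by
  refine (mk_biUnion_le A C).trans ?_
  refine (mul_le_mul' hC ?_).trans (mul_eq_self hc).le
  exact ciSup_le' (fun i => hA i i.2)

omit [IsScalarTower F K V] in
theorem unionSt_sz (C : Set (St F K V S)) (hC : IsChain (· ≤ ·) C) (hne : C.Nonempty)
    (c : Cardinal.{0}) (hc : ℵ₀ ≤ c) (hCc : #C ≤ c) (hs : ∀ σ ∈ C, Sz σ c) :
    Sz (unionSt C) c := by
  refine ⟨?_, ?_, ?_⟩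
  · exact mk_biUnion_le' C (fun σ => σ.O) c hc hCc (fun σ hσ => (hs σ hσ).1)
  · refine le_trans ?_ (mk_biUnion_le' C (fun σ => (σ.H : Set V)) c hc hCc
      (fun σ hσ => (hs σ hσ).2.1))
    refine mk_le_mk_of_subset ?_
    intro x hx
    obtain ⟨σ, hσ, h⟩ := (mem_unionSt_H hC hne x).mp hx
    exact Set.mem_biUnion hσ h
  · exact mk_biUnion_le' C (fun σ => σ.G) c hc hCc (fun σ hσ => (hs σ hσ).2.2)

/-- the decision step: either `a` lies in the subspace or it is excluded for ever -/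
theorem stepC {κ : Basis J F K} {lam : S → Module.End K V} {Adm : Module.End K V → Prop}
    {E : Set V} {σ : St F K V S} (hσ : Good κ lam Adm E σ) (c : Cardinal.{0}) (hc : ℵ₀ ≤ c)
    (hsz : Sz σ c) (a : V) :
    ∃ σ' : St F K V S, Good κ lam Adm E σ' ∧ σ ≤ σ' ∧ Sz σ' c ∧ (a ∈ σ'.G ∨ a ∈ σ'.H) := by
  by_cases ha : a ∈ σ.H
  · exact ⟨σ, hσ, le_rfl, hsz, Or.inr ha⟩
  · refine ⟨⟨σ.O, σ.H, insert a σ.G⟩, ⟨hσ.func, hσ.adm, hσ.rk, hσ.cl, hσ.ld, ?_, hσ.base⟩,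
      ⟨subset_rfl, le_rfl, Set.subset_insert _ _⟩, ⟨hsz.1, hsz.2.1, ?_⟩,
      Or.inl (Set.mem_insert _ _)⟩
    · intro g hg
      rcases hg with rfl | hg
      · exact ha
      · exact hσ.disj g hg
    · refine mk_insert_le.trans ?_
      exact (add_le_add hsz.2.2 ((one_le_aleph0).trans hc)).trans (add_eq_self hc).le

end union

end Pool.Agent.Lib.MP_e12dda_al
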