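import Pool.Agent.Lib.MP_e12dda_al.Words

set_option autoImplicit false

namespace Pool.Agent.Lib.MP_e12dda_al

open Cardinal Module

section tk

variable {K : Type} [Field K] {V W : Type} [AddCommGroup V] [Module K V]
  [AddCommGroup W] [Module K W] {J : Type}

/-- `Tk κ z = ∑ j, κ j • z j`. -/
noncomputable def Tk (κ : J → K) : (J →₀ V) →ₗ[K] V :=
  Finsupp.lsum K (fun j => κ j • (LinearMap.id : V →ₗ[K] V))

theorem Tk_single (κ : J → K) (j : J) (y : V) : Tk κ (Finsupp.single j y) = κ j • y := by
  simp [Tk]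

theorem Tk_map (κ : J → K) (f : V →ₗ[K] W) (z : J →₀ V) :
    f (Tk κ z) = Tk κ (z.mapRange f (map_zero f)) := by
  classical
  induction z using Finsupp.induction_linear with
  | zero => simp
  | add a b ha hb =>
    rw [map_add, map_add, ha, hb, Finsupp.mapRange_add (by intro x y; simp), map_add]
  | single a b => rw [Tk_single, Finsupp.mapRange_single, Tk_single, map_smul]

theorem Tk_mem (κ : J → K) (D : Submodule K V) (z : J →₀ V) (hz : ∀ j, z j ∈ D) :
    Tk κ z ∈ D := by
  classical
  unfold Tk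
  rw [Finsupp.lsum_apply]
  refine Submodule.sum_mem _ ?_
  intro j _
  exact D.smul_mem _ (hz j)

end tk

section ld

variable {F K : Type} [Field F] [Field K] [Algebra F K] {V : Type} [AddCommGroup V] [Module K V]
  [Module F V] [IsScalarTower F K V] {J : Type}

/-- linear disjointness of the `F`-subspace `H` from `K` -/
def LD (κ : Basis J F K) (H : Submodule F V) : Prop :=
  ∀ z : J →₀ V, (∀ j, z j ∈ H) → Tk (κ : J → K) z = 0 → z = 0

theorem exists_lift {X Y : Type} [Zero X] [Zero Y] (f : X → Y) (hf : f 0 = 0) (Q : X → Prop) (hQ : Q 0)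
    (z : J →₀ Y) (hz : ∀ j, ∃ x, Q x ∧ f x = z j) :
    ∃ ζ : J →₀ X, (∀ j, Q (ζ j)) ∧ ζ.mapRange f hf = z := by
  classical
  choose x hx1 hx2 using hz
  refine ⟨Finsupp.onFinset z.support (fun j => if j ∈ z.support then x j else 0) ?_, ?_, ?_⟩
  · intro j hj
    by_contra h
    simp [h] at hj
  · intro j
    simp only [Finsupp.onFinset_apply]
    split_ifs
    · exact hx1 j
    · exact hQ
  · ext j
    simp only [Finsupp.mapRange_apply, Finsupp.onFinset_apply]
    split_ifs with h
    · exact hx2 j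
    · rw [hf]
      simpa using (Finsupp.notMem_support_iff.mp h).symm

theorem Tk_repr_smul (κ : Basis J F K) (c : K) (y : V) :
    Tk (κ : J → K) ((κ.repr c).mapRange (fun q : F => q • y) (zero_smul F y)) = c • y := by
  classical
  have h1 : ∀ r : J →₀ F, Tk (κ : J → K) (r.mapRange (fun q : F => q • y) (zero_smul F y)) =
      (κ.repr.symm r) • y := by
    intro r
    induction r using Finsupp.induction_linear with
    | zero => simp
    | add a b ha hb =>
      rw [map_add, add_smul, ← ha, ← hb, ← map_add]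
      congr 1
      rw [Finsupp.mapRange_add]
      intro u v
      rw [add_smul]
    | single a b =>
      rw [Finsupp.mapRange_single, Tk_single]
      simp only [Basis.repr_symm_single]
      rw [smul_comm, smul_assoc]
  rw [h1]; simp

theorem exists_of_mem_span (κ : Basis J F K) (H : Submodule F V) (x : V)
    (hx : x ∈ Submodule.span K (H : Set V)) :
    ∃ z : J →₀ V, (∀ j, z j ∈ H) ∧ Tk (κ : J → K) z = x := by
  classical
  have hP : ∀ c : K, ∃ z : J →₀ V, (∀ j, z j ∈ H) ∧ Tk (κ : J → K) z = c • x := by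
    induction hx using Submodule.span_induction with
    | mem x hx =>
      intro c
      refine ⟨_, ?_, Tk_repr_smul κ c x⟩
      intro j
      simp only [Finsupp.mapRange_apply]
      exact H.smul_mem _ hx
    | zero => intro c; exact ⟨0, by simp, by simp⟩
    | add x y _ _ hx hy =>
      intro c
      obtain ⟨z, hz1, hz2⟩ := hx c
      obtain ⟨w, hw1, hw2⟩ := hy c
      refine ⟨z + w, fun j => H.add_mem (hz1 j) (hw1 j), ?_⟩
      rw [map_add, hz2, hw2, smul_add]
    | smul a x _ hx =>
      intro c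
      obtain ⟨z, hz1, hz2⟩ := hx (c * a)
      exact ⟨z, hz1, by rw [hz2, mul_smul]⟩
  simpa using hP 1

theorem LD_irr (κ : Basis J F K) (H : Submodule F V) (hH : LD κ H) (t : V) (ht : t ∈ H) (c : K)
    (hc : c ∉ Set.range (algebraMap F K)) (hct : c • t ∈ H) : t = 0 := by
  classical
  by_contra hne
  let z : J →₀ V := ((κ.repr c).mapRange (fun q : F => q • t) (zero_smul F t)) -
    ((κ.repr 1).mapRange (fun q : F => q • (c • t)) (zero_smul F _))
  have hz : Tk (κ : J → K) z = 0 := by
    simp only [z]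
    rw [map_sub, Tk_repr_smul, Tk_repr_smul, one_smul, sub_self]
  have h0 := hH z (fun j => by
    simp only [z, Finsupp.sub_apply, Finsupp.mapRange_apply]
    exact H.sub_mem (H.smul_mem _ ht) (H.smul_mem _ hct)) hz
  have h1 : κ.repr 1 ≠ 0 := by
    intro h
    have : (1 : K) = 0 := by
      apply κ.repr.injective; rw [h]; simp
    exact one_ne_zero this
  obtain ⟨j, hj⟩ : ∃ j, κ.repr 1 j ≠ 0 := by
    by_contra hcon
    push Not at hcon
    exact h1 (by ext j; simpa using hcon j)
  have h2 : z j = 0 := by rw [h0]; simp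
  simp only [z, Finsupp.sub_apply, Finsupp.mapRange_apply] at h2
  have h3 : (κ.repr c j) • t = (κ.repr 1 j) • (c • t) := by
    rwa [sub_eq_zero] at h2
  have h4 : c • t = ((κ.repr 1 j)⁻¹ * κ.repr c j) • t := by
    rw [mul_smul, h3, smul_smul, inv_mul_cancel₀ hj, one_smul]
  have h5 : (c - algebraMap F K ((κ.repr 1 j)⁻¹ * κ.repr c j)) • t = 0 := by
    rw [sub_smul, algebraMap_smul, ← h4, sub_self]
  rcases smul_eq_zero.mp h5 with h6 | h6
  · exact hc ⟨_, (sub_eq_zero.mp h6).symm⟩
  · exact hne h6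

theorem LD_range (κ : Basis J F K) : LD κ (LinearMap.range (Algebra.linearMap F K)) := by
  classical
  intro z hz h
  have : ∀ j, ∃ q : F, True ∧ algebraMap F K q = z j := fun j => by
    obtain ⟨q, hq⟩ := hz j
    exact ⟨q, trivial, hq⟩
  obtain ⟨ζ, -, hζ⟩ := exists_lift (algebraMap F K) (map_zero _) (fun _ => True) trivial z this
  have h1 : ∀ r : J →₀ F, Tk (κ : J → K) (r.mapRange (algebraMap F K) (map_zero _)) =
      κ.repr.symm r := by
    intro r
    induction r using Finsupp.induction_linear with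
    | zero => simp
    | add a b ha hb =>
      rw [map_add, ← ha, ← hb, ← map_add]
      congr 1
      rw [Finsupp.mapRange_add]
      intro u v
      rw [map_add]
    | single a b =>
      rw [Finsupp.mapRange_single, Tk_single]
      simp only [Basis.repr_symm_single]
      rw [smul_eq_mul, Algebra.smul_def b, mul_comm]
  rw [← hζ, h1] at h
  have h2 : ζ = 0 := by
    have := congrArg κ.repr h
    simpa using this
  rw [← hζ, h2]; simp

/-- functions with values in a submodule, pushed forward by `Ev` -/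
def Wsub {C L : Type} [AddCommGroup C] [Module K C] [Module F C] [IsScalarTower F K C]
    (op : L → Module.End K V) (root : C →ₗ[K] V) (CF : Submodule F C) : Submodule F V where
  carrier := {v | ∃ z : List L →₀ C, (∀ r, z r ∈ CF) ∧ Ev op root z = v}
  zero_mem' := ⟨0, by simp, by simp⟩
  add_mem' := by
    rintro _ _ ⟨z, hz, rfl⟩ ⟨w, hw, rfl⟩
    exact ⟨z + w, fun r => CF.add_mem (hz r) (hw r), by simp⟩
  smul_mem' := by
    rintro q _ ⟨z, hz, rfl⟩
    refine ⟨q • z, fun r => CF.smul_mem _ (hz r), ?_⟩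
    rw [← algebraMap_smul K q z, map_smul, algebraMap_smul]

theorem root_mem_Wsub {C L : Type} [AddCommGroup C] [Module K C] [Module F C] [IsScalarTower F K C]
    (op : L → Module.End K V) (root : C →ₗ[K] V) (CF : Submodule F C) (y : C) (hy : y ∈ CF) :
    root y ∈ Wsub op root CF := by
  classical
  refine ⟨Finsupp.single [] y, ?_, ?_⟩
  · intro r
    rw [Finsupp.single_apply]
    split_ifs
    · exact hy
    · exact CF.zero_mem
  · rw [Ev_single]; simp

theorem op_mem_Wsub {C L : Type} [AddCommGroup C] [Module K C] [Module F C] [IsScalarTower F K C]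
    (op : L → Module.End K V) (root : C →ₗ[K] V) (CF : Submodule F C) (o : L) (v : V)
    (hv : v ∈ Wsub op root CF) : op o v ∈ Wsub op root CF := by
  classical
  obtain ⟨z, hz, rfl⟩ := hv
  refine ⟨z.mapDomain (fun r => o :: r), ?_, Ev_cons op root o z⟩
  intro r
  have hinj : Function.Injective (fun r : List L => o :: r) := fun a b h => by simpa using h
  by_cases hr : r ∈ Set.range (fun r : List L => o :: r)
  · obtain ⟨r', rfl⟩ := hr
    have := Finsupp.mapDomain_apply hinj z r'
    rw [this]; exact hz r'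
  · rw [Finsupp.mapDomain_of_notMem_range _ _ hr]
    exact CF.zero_mem

/-- The extension principle. -/
theorem LD_sup {C L : Type} [AddCommGroup C] [Module K C] [Module F C] [IsScalarTower F K C]
    (κ : Basis J F K) (op : L → Module.End K V) (root : C →ₗ[K] V) (CF : Submodule F C)
    (hCF : LD κ CF) (H : Submodule F V) (hH : LD κ H) (D : Submodule K V)
    (hHD : ∀ h ∈ H, h ∈ D) (hkey : ∀ z, Ev op root z ∈ D → z = 0) :
    LD κ (H ⊔ Wsub op root CF) := by
  classical
  intro z hz h
  let f : V × (List L →₀ C) →ₗ[K] V := LinearMap.coprod LinearMap.id (Ev op root)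
  have hz' : ∀ j, ∃ x : V × (List L →₀ C), (x.1 ∈ H ∧ ∀ r, x.2 r ∈ CF) ∧ f x = z j := by
    intro j
    obtain ⟨a, ha, b, ⟨w, hw, rfl⟩, hab⟩ := Submodule.mem_sup.mp (hz j)
    exact ⟨(a, w), ⟨ha, hw⟩, by simpa [f] using hab⟩
  obtain ⟨ζ, hζ1, hζ2⟩ := exists_lift f (map_zero f)
    (fun x : V × (List L →₀ C) => x.1 ∈ H ∧ ∀ r, x.2 r ∈ CF) ⟨H.zero_mem, fun r => CF.zero_mem⟩ z hz'
  have h1 : f (Tk (κ : J → K) ζ) = 0 := by
    rw [Tk_map, hζ2, h]
  have h2 : (Tk (κ : J → K) ζ).1 = Tk (κ : J → K) (ζ.mapRange Prod.fst rfl) := by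
    have := Tk_map (κ : J → K) (LinearMap.fst K V (List L →₀ C)) ζ
    simpa using this
  have h3 : (Tk (κ : J → K) ζ).2 = Tk (κ : J → K) (ζ.mapRange Prod.snd rfl) := by
    have := Tk_map (κ : J → K) (LinearMap.snd K V (List L →₀ C)) ζ
    simpa using this
  have h4 : (Tk (κ : J → K) ζ).1 + Ev op root ((Tk (κ : J → K) ζ).2) = 0 := by
    simpa [f] using h1
  have h5 : (Tk (κ : J → K) ζ).1 ∈ D := by
    rw [h2]
    apply Tk_mem
    intro j
    simp only [Finsupp.mapRange_apply]
    exact hHD _ (hζ1 j).1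
  have h6 : (Tk (κ : J → K) ζ).2 = 0 := by
    apply hkey
    have : Ev op root ((Tk (κ : J → K) ζ).2) = -(Tk (κ : J → K) ζ).1 := by
      rw [eq_neg_iff_add_eq_zero, add_comm]; exact h4
    rw [this]
    exact D.neg_mem h5
  have h7 : (Tk (κ : J → K) ζ).1 = 0 := by
    rw [h6] at h4; simpa using h4
  have h8 : ζ.mapRange Prod.fst rfl = (0 : J →₀ V) := by
    apply hH
    · intro j; simp only [Finsupp.mapRange_apply]; exact (hζ1 j).1
    · rw [← h2]; exact h7
  have h9 : ∀ r : List L, (Tk (κ : J → K)) ((ζ.mapRange Prod.snd rfl).mapRange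
      (Finsupp.lapply (R := K) r) (map_zero _)) = (0 : C) := by
    intro r
    rw [← Tk_map, ← h3, h6]; simp
  have h10 : ∀ r : List L, ((ζ.mapRange Prod.snd rfl).mapRange
      (Finsupp.lapply (R := K) r) (map_zero _)) = (0 : J →₀ C) := by
    intro r
    apply hCF _ _ (h9 r)
    intro j
    simp only [Finsupp.mapRange_apply]
    exact (hζ1 j).2 r
  rw [← hζ2]
  ext j
  simp only [Finsupp.mapRange_apply, Finsupp.coe_zero, Pi.zero_apply]
  have h11 : (ζ j).1 = 0 := by
    have := DFunLike.congr_fun h8 j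
    simpa using this
  have h12 : (ζ j).2 = 0 := by
    ext r
    have := DFunLike.congr_fun (h10 r) j
    simpa using this
  have : ζ j = 0 := Prod.ext h11 h12
  rw [this, map_zero]

theorem notMem_sup {C L : Type} [AddCommGroup C] [Module K C] [Module F C] [IsScalarTower F K C]
    (op : L → Module.End K V) (root : C →ₗ[K] V) (CF : Submodule F C)
    (H : Submodule F V) (D : Submodule K V)
    (hHD : ∀ h ∈ H, h ∈ D) (hkey : ∀ z, Ev op root z ∈ D → z = 0)
    (g : V) (hgD : g ∈ D) (hg : g ∉ H) : g ∉ H ⊔ Wsub op root CF := by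
  intro h
  obtain ⟨a, ha, b, ⟨w, hw, rfl⟩, hab⟩ := Submodule.mem_sup.mp h
  have : w = 0 := by
    apply hkey
    have : Ev op root w = g - a := by rw [← hab]; abel
    rw [this]
    exact D.sub_mem hgD (hHD _ ha)
  rw [this, map_zero, add_zero] at hab
  exact hg (hab ▸ ha)

end ld

end Pool.Agent.Lib.MP_e12dda_al
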