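import Pool.Agent.Lib.MP_e12dda_al.Disj

set_option autoImplicit false

namespace Pool.Agent.Lib.MP_e12dda_al

open Cardinal Module

section card

theorem mk_list_le' {α : Type} (c : Cardinal.{0}) (hc : ℵ₀ ≤ c) (h : #α ≤ c) : #(List α) ≤ c :=
  (mk_list_le_max α).trans (max_le hc h)

theorem mk_prod_le' {α β : Type} (c : Cardinal.{0}) (hc : ℵ₀ ≤ c) (h : #α ≤ c) (h' : #β ≤ c) :
    #(α × β) ≤ c := by
  rw [mk_prod, lift_id, lift_id]
  exact (mul_le_mul' h h').trans (mul_eq_self hc).le

theorem mk_finset_le' {α : Type} (c : Cardinal.{0}) (hc : ℵ₀ ≤ c) (h : #α ≤ c) :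
    #(Finset α) ≤ c := by
  classical
  refine le_trans ?_ (mk_list_le' c hc h)
  exact mk_le_of_surjective (f := fun l : List α => l.toFinset) (fun s => ⟨s.toList, by simp⟩)

theorem mk_finsupp_le' {α β : Type} [Zero β] (c : Cardinal.{0}) (hc : ℵ₀ ≤ c) (h : #α ≤ c)
    (h' : #β ≤ c) : #(α →₀ β) ≤ c :=
  (mk_le_of_injective (Finsupp.graph_injective α β)).trans
    (mk_finset_le' c hc (mk_prod_le' c hc h h'))

end card

section fresh

variable {K : Type} [Field K] {V : Type} [AddCommGroup V] [Module K V] {S : Type}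

/-- operators with independent images and trivial kernels -/
def IndepOps (lam : S → Module.End K V) : Prop :=
  ∀ z : S →₀ V, z.sum (fun s y => lam s y) = 0 → z = 0

theorem indep_two (lam : S → Module.End K V) (h : IndepOps lam) {L1 L2 : Type}
    (l1 : L1 → S) (l2 : L2 → S) (h1 : Function.Injective l1) (h2 : Function.Injective l2)
    (h12 : ∀ a b, l1 a ≠ l2 b) (y : L1 →₀ V) (w : L2 →₀ V)
    (hs : y.sum (fun a v => lam (l1 a) v) + w.sum (fun b v => lam (l2 b) v) = 0) :
    y = 0 ∧ w = 0 := by
  classical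
  have hz : y.mapDomain l1 + w.mapDomain l2 = 0 := by
    apply h
    rw [Finsupp.sum_add_index' (by simp) (by simp),
      Finsupp.sum_mapDomain_index (by simp) (by simp),
      Finsupp.sum_mapDomain_index (by simp) (by simp)]
    exact hs
  constructor
  · ext a
    have := DFunLike.congr_fun hz (l1 a)
    rw [Finsupp.add_apply, Finsupp.mapDomain_apply h1, Finsupp.mapDomain_of_notMem_range] at this
    · simpa using this
    · rintro ⟨b, hb⟩
      exact h12 a b hb.symm
  · ext b
    have := DFunLike.congr_fun hz (l2 b)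
    rw [Finsupp.add_apply, Finsupp.mapDomain_apply h2, Finsupp.mapDomain_of_notMem_range] at this
    · simpa using this
    · rintro ⟨a, ha⟩
      exact h12 a b ha

theorem indep_one (lam : S → Module.End K V) (h : IndepOps lam) {L2 : Type}
    (s : S) (l2 : L2 → S) (h2 : Function.Injective l2)
    (h12 : ∀ b, s ≠ l2 b) (y : V) (w : L2 →₀ V)
    (hs : lam s y + w.sum (fun b v => lam (l2 b) v) = 0) :
    y = 0 ∧ w = 0 := by
  classical
  have := indep_two lam h (fun _ : Unit => s) l2 (fun _ _ _ => rfl) h2 (fun _ b => h12 b)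
    (Finsupp.single () y) w (by rw [Finsupp.sum_single_index (by simp)]; exact hs)
  exact ⟨by simpa using this.1, this.2⟩

theorem exists_D (T : Set (Module.End K V)) (Z : Set V) (c : Cardinal.{0}) (hc : ℵ₀ ≤ c)
    (hT : #T ≤ c) (hZ : #Z ≤ c) :
    ∃ D : Submodule K V, Z ⊆ D ∧ (∀ t ∈ T, ∀ d ∈ D, t d ∈ D) ∧ Module.rank K D ≤ c := by
  classical
  let g : List T × Z → V := fun p => ((p.1.map (fun t : T => (t : Module.End K V))).prod) (p.2 : V)
  refine ⟨Submodule.span K (Set.range g), ?_, ?_, ?_⟩
  · intro z hz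
    exact Submodule.subset_span ⟨([], ⟨z, hz⟩), by simp [g]⟩
  · intro t ht d hd
    induction hd using Submodule.span_induction with
    | mem x hx =>
      obtain ⟨⟨l, z⟩, rfl⟩ := hx
      exact Submodule.subset_span ⟨(⟨t, ht⟩ :: l, z), by simp [g]⟩
    | zero => simp
    | add x y _ _ hx hy => rw [map_add]; exact Submodule.add_mem _ hx hy
    | smul a x _ hx => rw [map_smul]; exact Submodule.smul_mem _ _ hx
  · refine (rank_span_le _).trans (mk_range_le.trans ?_)
    exact mk_prod_le' c hc (mk_list_le' c hc hT) hZ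

theorem exists_fresh (lam : S → Module.End K V) (h : IndepOps lam) (U : Set S)
    (D : Submodule K V) (c : Cardinal.{0}) (hc : ℵ₀ ≤ c) (hU : #U ≤ c)
    (hD : Module.rank K D ≤ c) (hS : c < #S) :
    ∃ s, s ∉ U ∧ ∃ L' : Submodule K V, (∀ y, lam s y ∈ L') ∧
      (∀ u ∈ U, ∀ y ∈ L', lam u y ∈ L') ∧ Disjoint L' D := by
  classical
  by_contra hcon
  push Not at hcon
  let op : U → Module.End K V := fun u => lam u
  have hex : ∀ s : (Uᶜ : Set S), ∃ z : List U →₀ V, Ev op (lam s) z ∈ D ∧ Ev op (lam s) z ≠ 0 := by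
    rintro ⟨s, hs⟩
    have := hcon s hs (LinearMap.range (Ev op (lam s)))
      (fun y => ⟨Finsupp.single [] y, by rw [Ev_single]; simp⟩)
      (by
        rintro u hu _ ⟨z, rfl⟩
        exact ⟨z.mapDomain (fun r => (⟨u, hu⟩ : U) :: r), by rw [Ev_cons]⟩)
    rw [Submodule.disjoint_def] at this
    push Not at this
    obtain ⟨x, ⟨z, rfl⟩, hx2, hx3⟩ := this
    exact ⟨z, hx2, hx3⟩
  choose zs hz1 hz2 using hex
  let root : ((Uᶜ : Set S) →₀ V) →ₗ[K] V := Finsupp.lsum K (fun s : (Uᶜ : Set S) => lam s)
  have hkey : ∀ z, Ev op root z ∈ (⊥ : Submodule K V) → z = 0 := by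
    apply key
    intro y w _ hyw
    have h0 := indep_two lam h (fun a : (Uᶜ : Set S) => (a : S)) (fun u : U => (u : S))
      Subtype.val_injective Subtype.val_injective
      (fun a b hab => a.2 (hab ▸ b.2)) y w (by simpa [root, op] using hyw)
    refine ⟨fun o => ?_, fun _ => h0.1⟩
    rw [h0.2]; simp
  have hEv : ∀ (s : (Uᶜ : Set S)) (z : List U →₀ V),
      Ev op root (z.mapRange (Finsupp.lsingle (R := K) s) (map_zero _)) = Ev op (lam s) z := by
    intro s z
    induction z using Finsupp.induction_linear with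
    | zero => simp
    | add a b ha hb =>
      rw [Finsupp.mapRange_add (by intro x y; simp), map_add, ha, hb, map_add]
    | single a b =>
      rw [Finsupp.mapRange_single, Ev_single, Ev_single]
      simp [root]
  have hli : LinearIndependent K (fun s : (Uᶜ : Set S) => (⟨Ev op (lam s) (zs s), hz1 s⟩ : D)) := by
    rw [linearIndependent_iff]
    intro l hl
    have h1 : Ev op root (l.sum (fun s k =>
        k • ((zs s).mapRange (Finsupp.lsingle (R := K) s) (map_zero _)))) = 0 := by
      rw [Finsupp.sum, map_sum]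
      have h2 := congrArg (Submodule.subtype D) hl
      rw [Finsupp.linearCombination_apply, Finsupp.sum, map_sum, map_zero] at h2
      rw [← h2]
      apply Finset.sum_congr rfl
      intro s _
      rw [map_smul, hEv, map_smul]
      rfl
    have h2 := hkey _ (by rw [h1]; exact Submodule.zero_mem _)
    ext s
    have h3 : ∀ r, (l.sum (fun s k =>
        k • ((zs s).mapRange (Finsupp.lsingle (R := K) s) (map_zero _)))) r s = l s • zs s r := by
      intro r
      rw [Finsupp.sum, Finsupp.finset_sum_apply, Finsupp.finset_sum_apply]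
      rw [Finset.sum_eq_single s]
      · simp
      · intro b _ hb
        simp [Finsupp.single_apply, hb]
      · intro hs
        simp at hs
        simp [hs]
    by_contra hne
    have h4 : zs s = 0 := by
      ext r
      have h5 := h3 r
      rw [h2] at h5
      simp only [Finsupp.coe_zero, Pi.zero_apply] at h5
      have h6 := smul_eq_zero.mp h5.symm
      rcases h6 with h6 | h6
      · exact absurd h6 hne
      · simpa using h6
    exact hz2 s (by rw [h4]; simp)
  have h1 : #((Uᶜ : Set S)) ≤ c := (hli.cardinal_le_rank).trans hD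
  have h2 : #S ≤ c := by
    rw [← mk_sum_compl U]
    exact (add_le_add hU h1).trans (add_eq_self hc).le
  exact absurd hS (not_lt.mpr h2)

end fresh

end Pool.Agent.Lib.MP_e12dda_al
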