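import Pool.Agent.Lib.MP_e12dda_al.Family

set_option autoImplicit false

namespace Pool.Agent.Lib.MP_e12dda_al

open Cardinal Module Filter Topology

theorem norm_natCast_eq_one (p : ℕ) (hp : p.Prime) (h2 : p ≠ 2) : ‖(p : ℚ_[2])‖ = 1 := by
  rw [Padic.norm_natCast_eq_one_iff]
  exact ((Nat.coprime_primes Nat.prime_two hp).mpr (Ne.symm h2))

/-- bounded operators -/
def Bdd (T : Module.End ℚ_[2] V) : Prop := ∃ N : ℕ, Adm (((2 : ℚ_[2]) ^ N) • T)

theorem two_pow_le (n : ℕ) : ‖(2 : ℚ_[2]) ^ n‖ ≤ 1 := by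
  rw [norm_two_pow]
  exact pow_le_one₀ (by norm_num) (by norm_num)

theorem two_pow_ne (n : ℕ) : (2 : ℚ_[2]) ^ n ≠ 0 := pow_ne_zero _ (by norm_num)

theorem bdd_of_adm {T : Module.End ℚ_[2] V} (h : Adm T) : Bdd T := ⟨0, by simpa using h⟩

theorem bdd_mono {T : Module.End ℚ_[2] V} {N M : ℕ} (hNM : N ≤ M)
    (h : Adm (((2 : ℚ_[2]) ^ N) • T)) : Adm (((2 : ℚ_[2]) ^ M) • T) := by
  have : ((2 : ℚ_[2]) ^ M) • T = ((2 : ℚ_[2]) ^ (M - N)) • (((2 : ℚ_[2]) ^ N) • T) := by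
    rw [smul_smul, ← pow_add, Nat.sub_add_cancel hNM]
  rw [this]
  exact adm_smul _ (two_pow_le _) h

theorem bdd_ext (T T' : Module.End ℚ_[2] V) (h : Bdd T) (h' : Bdd T')
    (hE : ∀ b, T (e b) = T' (e b)) : T = T' := by
  obtain ⟨N, hN⟩ := h
  obtain ⟨N', hN'⟩ := h'
  have h1 := bdd_mono (le_max_left N N') hN
  have h2 := bdd_mono (le_max_right N N') hN'
  have h3 := adm_ext _ _ h1 h2 (fun b => by
    rw [LinearMap.smul_apply, LinearMap.smul_apply, hE])
  exact smul_right_injective _ (two_pow_ne _) h3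

theorem bdd_scalar (q : ℚ_[2]) : Bdd (algebraMap ℚ_[2] (Module.End ℚ_[2] V) q) := by
  obtain ⟨N, hN⟩ : ∃ N : ℕ, ‖(2 : ℚ_[2]) ^ N * q‖ ≤ 1 := by
    by_cases hq : ‖q‖ = 0
    · exact ⟨0, by rw [norm_mul, hq, mul_zero]; exact zero_le_one⟩
    · have hq' : 0 < ‖q‖ := lt_of_le_of_ne (norm_nonneg _) (Ne.symm hq)
      obtain ⟨N, hN⟩ := exists_pow_lt_of_lt_one (inv_pos.mpr hq')
        (by norm_num : (1 / 2 : ℝ) < 1)
      refine ⟨N, ?_⟩
      rw [norm_mul, norm_two_pow]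
      have := mul_lt_mul_of_pos_right hN hq'
      rw [inv_mul_cancel₀ hq] at this
      exact this.le
  refine ⟨N, ?_⟩
  rw [Algebra.algebraMap_eq_smul_one, smul_smul]
  exact adm_smul _ hN adm_one

theorem bdd_adjoin (s : Set (Module.End ℚ_[2] V)) (hs : ∀ T ∈ s, Adm T)
    (r : Module.End ℚ_[2] V) (hr : r ∈ Algebra.adjoin ℚ s) : Bdd r := by
  induction hr using Algebra.adjoin_induction with
  | mem x hx => exact bdd_of_adm (hs x hx)
  | algebraMap q =>
    have := bdd_scalar (algebraMap ℚ ℚ_[2] q)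
    rwa [← IsScalarTower.algebraMap_apply] at this
  | add x y _ _ hx hy =>
    obtain ⟨N, hN⟩ := hx
    obtain ⟨M, hM⟩ := hy
    refine ⟨max N M, ?_⟩
    rw [smul_add]
    exact adm_add (bdd_mono (le_max_left _ _) hN) (bdd_mono (le_max_right _ _) hM)
  | mul x y _ _ hx hy =>
    obtain ⟨N, hN⟩ := hx
    obtain ⟨M, hM⟩ := hy
    refine ⟨N + M, ?_⟩
    have : ((2 : ℚ_[2]) ^ (N + M)) • (x * y) =
        (((2 : ℚ_[2]) ^ N) • x) * (((2 : ℚ_[2]) ^ M) • y) := by
      rw [smul_mul_smul_comm, ← pow_add]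
    rw [this]
    exact adm_mul hN hM

theorem exists_max_coord (a : V) (ha : a ≠ 0) :
    ∃ i, (a : List ℕ → ℚ_[2]) i ≠ 0 ∧
      ∀ b, ‖(a : List ℕ → ℚ_[2]) b‖ ≤ ‖(a : List ℕ → ℚ_[2]) i‖ := by
  obtain ⟨i0, hi0⟩ : ∃ i, (a : List ℕ → ℚ_[2]) i ≠ 0 := by
    by_contra hcon
    push Not at hcon
    exact ha (Subtype.ext (funext hcon))
  have hpos : 0 < ‖(a : List ℕ → ℚ_[2]) i0‖ := norm_pos_iff.mpr hi0
  obtain ⟨i, hi, hmax⟩ := Set.exists_max_image _ (fun b => ‖(a : List ℕ → ℚ_[2]) b‖)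
    (a.2 _ hpos) ⟨i0, by rw [Set.mem_ofPred_eq]⟩
  have hi' : ‖(a : List ℕ → ℚ_[2]) i0‖ ≤ ‖(a : List ℕ → ℚ_[2]) i‖ := hi
  refine ⟨i, norm_pos_iff.mp (lt_of_lt_of_le hpos hi'), ?_⟩
  intro b
  by_cases hb : ‖(a : List ℕ → ℚ_[2]) i0‖ ≤ ‖(a : List ℕ → ℚ_[2]) b‖
  · exact hmax b hb
  · exact (not_le.mp hb).le.trans hi'

theorem exists_exact (a : V) (ha : a ≠ 0) (hb : Ball a) :
    ∃ n : ℕ, BallR ((1 / 2 : ℝ) ^ n) a ∧
      ∃ i, ‖(a : List ℕ → ℚ_[2]) i‖ = (1 / 2 : ℝ) ^ n := by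
  obtain ⟨i, hi, hmax⟩ := exists_max_coord a ha
  have h1 := Padic.norm_eq_zpow_neg_valuation hi
  have h2 : 0 ≤ ((a : List ℕ → ℚ_[2]) i).valuation := by
    rw [← Padic.norm_le_one_iff_val_nonneg]
    exact hb i
  obtain ⟨n, hn⟩ := Int.eq_ofNat_of_zero_le h2
  have h3 : ‖(a : List ℕ → ℚ_[2]) i‖ = (1 / 2 : ℝ) ^ n := by
    rw [h1, hn]
    rw [zpow_neg, one_div, inv_pow]
    norm_cast
  exact ⟨n, fun b => h3 ▸ hmax b, i, h3⟩

theorem main_theorem :
    ∃ (G : Type) (_ : AddCommGroup G),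
      (∀ (n : ℕ) (x : G), n ≠ 0 → n • x = 0 → x = 0) ∧
      (∀ a b : G, a ≠ 0 → b ≠ 0 → ∃ n : ℕ, n ≠ 0 ∧
        ∀ p : ℕ, p.Prime → ∀ k : ℕ,
          (∃ y : G, p ^ k • y = a) → ∃ y : G, p ^ k • y = n • b) ∧
      (∀ a b : G, a ≠ 0 →
        (∀ p : ℕ, p.Prime → ∀ k : ℕ,
          (∃ y : G, p ^ k • y = a) → ∃ y : G, p ^ k • y = b) →
        ∃ f : G →+ G, f a = b) ∧
      ¬ (∀ a b : G, a ≠ 0 → b ≠ 0 →
        (∀ p : ℕ, p.Prime → ∀ k : ℕ,
          ((∃ y : G, p ^ k • y = a) ↔ ∃ y : G, p ^ k • y = b)) →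
        ∃ f : G ≃+ G, f a = b) := by
  classical
  obtain ⟨I, hlin, f, hIne, hmono, hgood, htask, hsize⟩ := exists_family
  obtain ⟨i0⟩ := hIne
  -- the union of the subspaces
  let H : Submodule ℚ V :=
    { carrier := {x | ∃ i, x ∈ (f i).H}
      zero_mem' := ⟨i0, Submodule.zero_mem _⟩
      add_mem' := by
        rintro x y ⟨i, hi⟩ ⟨j, hj⟩
        exact ⟨max i j, Submodule.add_mem _ ((hmono (le_max_left i j)).2.1 hi)
          ((hmono (le_max_right i j)).2.1 hj)⟩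
      smul_mem' := by
        rintro q x ⟨i, hi⟩
        exact ⟨i, Submodule.smul_mem _ _ hi⟩ }
  have hH : ∀ x, x ∈ H ↔ ∃ i, x ∈ (f i).H := fun x => Iff.rfl
  have hHG : ∀ x ∈ H, ∀ i, x ∉ (f i).G := by
    rintro x ⟨j, hj⟩ i hi
    exact (hgood (max i j)).disj x ((hmono (le_max_left i j)).2.2 hi)
      ((hmono (le_max_right i j)).2.1 hj)
  have hHO : ∀ x ∈ H, ∀ i, ∀ o ∈ (f i).O, o.2 x ∈ H := by
    rintro x ⟨j, hj⟩ i o ho
    exact ⟨max i j, (hgood (max i j)).cl o ((hmono (le_max_left i j)).1 ho) x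
      ((hmono (le_max_right i j)).2.1 hj)⟩
  have heH : ∀ b, e b ∈ H := fun b => ⟨i0, (hgood i0).base ⟨b, rfl⟩⟩
  -- rational scalars acting through the `2`-adic field
  have hsm : ∀ (q : ℚ) (x : V), ((q : ℚ) : ℚ_[2]) • x = q • x := by
    intro q x
    have := algebraMap_smul ℚ_[2] q x
    rw [← this]
    congr 1
  have hHnat : ∀ (n : ℕ) (x : V), x ∈ H → ((n : ℚ_[2])⁻¹) • x ∈ H := by
    intro n x hx
    have h1 := hsm ((n : ℚ)⁻¹) x
    push_cast at h1
    rw [h1]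
    exact H.smul_mem _ hx
  have hHtwo : ∀ (n : ℕ) (x : V), x ∈ H → ((2 : ℚ_[2]) ^ n) • x ∈ H := by
    intro n x hx
    have h1 := hsm ((2 : ℚ) ^ n) x
    push_cast at h1
    rw [h1]
    exact H.smul_mem _ hx
  have hHtwo' : ∀ (n : ℕ) (x : V), x ∈ H → (((2 : ℚ_[2]) ^ n)⁻¹) • x ∈ H := by
    intro n x hx
    have h1 := hHnat (2 ^ n) x hx
    push_cast at h1
    exact h1
  -- the group
  let G : AddSubgroup V :=
    { carrier := {x | x ∈ H ∧ Ball x}
      zero_mem' := ⟨H.zero_mem, ballR_zero zero_le_one⟩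
      add_mem' := fun {x y} hx hy => ⟨H.add_mem hx.1 hy.1, ballR_add hx.2 hy.2⟩
      neg_mem' := fun {x} hx => ⟨H.neg_mem hx.1, ballR_neg hx.2⟩ }
  have hG : ∀ x, x ∈ G ↔ x ∈ H ∧ Ball x := fun x => Iff.rfl
  have hnsmul : ∀ (n : ℕ) (x : V), n • x = (n : ℚ_[2]) • x := fun n x =>
    (Nat.cast_smul_eq_nsmul ℚ_[2] n x).symm
  -- divisibility by powers of `2`
  have hdiv2 : ∀ (k : ℕ) (x : V), x ∈ G → BallR ((1 / 2 : ℝ) ^ k) x →
      ((2 : ℚ_[2]) ^ k)⁻¹ • x ∈ G := by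
    intro k x hx hk
    refine (hG _).mpr ⟨hHtwo' k x hx.1, ?_⟩
    have h1 := ballR_smul (((2 : ℚ_[2]) ^ k)⁻¹) hk
    rw [norm_inv, norm_two_pow, inv_mul_cancel₀ (by positivity)] at h1
    exact h1
  have hdivp : ∀ (p : ℕ), p.Prime → p ≠ 2 → ∀ (k : ℕ) (x : V), x ∈ G →
      ((p : ℚ_[2]) ^ k)⁻¹ • x ∈ G := by
    intro p hp hp2 k x hx
    refine (hG _).mpr ⟨?_, ?_⟩
    · have h1 := hHnat (p ^ k) x hx.1
      push_cast at h1
      exact h1
    · have h1 := ballR_smul (((p : ℚ_[2]) ^ k)⁻¹) ((ball_iff _).mp hx.2)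
      rw [norm_inv, norm_pow, norm_natCast_eq_one p hp hp2, one_pow, inv_one, one_mul] at h1
      exact h1
  have hsmall : ∀ (k : ℕ) (x y : G), 2 ^ k • y = x → BallR ((1 / 2 : ℝ) ^ k) (x : V) := by
    intro k x y hxy
    have h1 : (x : V) = ((2 : ℚ_[2]) ^ k) • (y : V) := by
      rw [← hxy, AddSubgroup.coe_nsmul, hnsmul]
      push_cast
      rfl
    have h2 := ballR_smul ((2 : ℚ_[2]) ^ k) ((ball_iff _).mp y.2.2)
    rw [norm_two_pow, mul_one] at h2
    rw [h1]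
    exact h2
  refine ⟨G, inferInstance, ?_, ?_, ?_, ?_⟩
  · -- torsion-free
    intro n x hn hx
    have h1 : (n : ℚ_[2]) • (x : V) = 0 := by
      rw [← hnsmul, ← AddSubgroup.coe_nsmul, hx]; rfl
    rcases smul_eq_zero.mp h1 with h | h
    · exact absurd (by exact_mod_cast h) hn
    · exact Subtype.ext h
  · -- homogeneous
    intro a b ha _
    have ha' : (a : V) ≠ 0 := fun h => ha (Subtype.ext h)
    obtain ⟨N, _, i, hi⟩ := exists_exact (a : V) ha' a.2.2
    refine ⟨2 ^ N, by positivity, ?_⟩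
    rintro p hp k ⟨y, hy⟩
    by_cases hp2 : p = 2
    · subst hp2
      have h1 := hsmall k a y hy i
      rw [hi] at h1
      have hkN : k ≤ N := by
        by_contra hcon
        have : (1 / 2 : ℝ) ^ k < (1 / 2 : ℝ) ^ N :=
          pow_lt_pow_right_of_lt_one₀ (by norm_num) (by norm_num) (not_le.mp hcon)
        linarith
      refine ⟨2 ^ (N - k) • b, ?_⟩
      rw [smul_smul, ← pow_add, Nat.add_sub_cancel' hkN]
    · refine ⟨⟨_, hdivp p hp hp2 k _ ((2 ^ N • b : G)).2⟩, ?_⟩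
      apply Subtype.ext
      rw [AddSubgroup.coe_nsmul, hnsmul]
      push_cast
      rw [smul_smul, mul_inv_cancel₀, one_smul]
      exact pow_ne_zero _ (by exact_mod_cast hp.ne_zero)
  · -- fully transitive
    intro a b ha hab
    have ha' : (a : V) ≠ 0 := fun h => ha (Subtype.ext h)
    obtain ⟨n, hn, i, hi⟩ := exists_exact (a : V) ha' a.2.2
    let a' : G := ⟨((2 : ℚ_[2]) ^ n)⁻¹ • (a : V), hdiv2 n _ a.2 hn⟩
    have haa : 2 ^ n • a' = a := by
      apply Subtype.ext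
      rw [AddSubgroup.coe_nsmul, hnsmul]
      push_cast
      simp only [a']
      rw [smul_smul, mul_inv_cancel₀ (two_pow_ne n), one_smul]
    obtain ⟨b', hb'⟩ := hab 2 Nat.prime_two n ⟨a', haa⟩
    have ha'n : ‖((a' : V) : List ℕ → ℚ_[2]) i‖ = 1 := by
      simp only [a']
      rw [Submodule.coe_smul, Pi.smul_apply, norm_smul, hi, norm_inv, norm_two_pow,
        inv_mul_cancel₀ (by positivity)]
    obtain ⟨j, hj, -⟩ := htask (a' : V) (b' : V) 1 adm_one
    rcases hj with h | h | ⟨_, _, h⟩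
    · exact absurd h (hHG _ a'.2.1 j)
    · exact absurd h (hHG _ b'.2.1 j)
    · obtain ⟨o, ho, hoab⟩ := h a'.2.2 ⟨i, ha'n⟩ b'.2.2
      let g : G →+ G :=
        { toFun := fun x => ⟨o.2 (x : V), hHO _ x.2.1 j o ho, (hgood j).adm o ho _ x.2.2⟩
          map_zero' := Subtype.ext (map_zero o.2)
          map_add' := fun x y => Subtype.ext (map_add o.2 _ _) }
      refine ⟨g, ?_⟩
      have hg : g a' = b' := Subtype.ext hoab
      rw [← haa, map_nsmul, hg, hb']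
  · -- not transitive
    intro htrans
    let x0 : G := ⟨e [], heH [], e_ball []⟩
    let x1 : G := ⟨e [0], heH [0], e_ball [0]⟩
    have hx0 : x0 ≠ 0 := fun h => e_ne_zero [] (congrArg Subtype.val h)
    have hx1 : x1 ≠ 0 := fun h => e_ne_zero [0] (congrArg Subtype.val h)
    have hchar : ∀ (b : List ℕ) (x : G), (x : V) = e b → ∀ p : ℕ, p.Prime → ∀ k : ℕ,
        ((∃ y : G, p ^ k • y = x) ↔ (p ≠ 2 ∨ k = 0)) := by
      intro b x hx p hp k
      constructor
      · rintro ⟨y, hy⟩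
        by_cases hp2 : p = 2
        · right
          subst hp2
          have h1 := hsmall k x y hy b
          rw [hx, e_self, norm_one] at h1
          by_contra hk
          have : (1 / 2 : ℝ) ^ k < 1 := pow_lt_one₀ (by norm_num) (by norm_num) hk
          linarith
        · exact Or.inl hp2
      · rintro (hp2 | hk)
        · refine ⟨⟨_, hdivp p hp hp2 k _ x.2⟩, ?_⟩
          apply Subtype.ext
          rw [AddSubgroup.coe_nsmul, hnsmul]
          push_cast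
          rw [smul_smul, mul_inv_cancel₀, one_smul]
          exact pow_ne_zero _ (by exact_mod_cast hp.ne_zero)
        · subst hk
          exact ⟨x, by simp⟩
    obtain ⟨Φ, hΦ⟩ := htrans x0 x1 hx0 hx1 (fun p hp k => by
      rw [hchar [] x0 rfl p hp k, hchar [0] x1 rfl p hp k])
    -- extension of group endomorphisms to operators
    have hext : ∀ Ψ : G →+ G, ∃ T : Module.End ℚ_[2] V, Adm T ∧ ∀ g : G, T (g : V) = Ψ g := by
      intro Ψ
      obtain ⟨T, hT1, hT2⟩ := exists_ext (fun b => ((Ψ ⟨e b, heH b, e_ball b⟩ : G) : V))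
        (fun b => (Ψ ⟨e b, heH b, e_ball b⟩).2.2)
      refine ⟨T, hT1, ?_⟩
      intro g
      rw [← sub_eq_zero]
      apply eq_zero_of_small
      intro n
      obtain ⟨z, hz, hzn⟩ := int_approx (g : V) g.2.2 n
      have hzG : ∀ z ∈ AddSubgroup.closure (Set.range e), ∃ z' : G, (z' : V) = z ∧
          T (z' : V) = Ψ z' := by
        intro z hz
        induction hz using AddSubgroup.closure_induction with
        | mem x hx =>
          obtain ⟨b, rfl⟩ := hx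
          exact ⟨⟨e b, heH b, e_ball b⟩, rfl, hT2 b⟩
        | zero => exact ⟨0, rfl, by simp⟩
        | add x y _ _ hx hy =>
          obtain ⟨x', hx1, hx2⟩ := hx
          obtain ⟨y', hy1, hy2⟩ := hy
          refine ⟨x' + y', by rw [AddSubgroup.coe_add, hx1, hy1], ?_⟩
          rw [AddSubgroup.coe_add, map_add, hx2, hy2, map_add, AddSubgroup.coe_add]
        | neg x _ hx =>
          obtain ⟨x', hx1, hx2⟩ := hx
          refine ⟨-x', by rw [AddSubgroup.coe_neg, hx1], ?_⟩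
          rw [AddSubgroup.coe_neg, map_neg, hx2, map_neg, AddSubgroup.coe_neg]
      obtain ⟨z', hz'1, hz'2⟩ := hzG z hz
      have hdG : (g : V) - z' ∈ G := (g - z').2
      have hd2 : BallR ((1 / 2 : ℝ) ^ n) ((g : V) - z') := by rw [hz'1]; exact hzn
      let d : G := ⟨_, hdiv2 n _ hdG hd2⟩
      have hd : 2 ^ n • d = g - z' := by
        apply Subtype.ext
        rw [AddSubgroup.coe_nsmul, hnsmul]
        push_cast
        simp only [d]
        rw [smul_smul, mul_inv_cancel₀ (two_pow_ne n), one_smul]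
      have hg : g = z' + 2 ^ n • d := by rw [hd]; abel
      have h1 : T (g : V) - Ψ g = ((2 : ℚ_[2]) ^ n) • (T (d : V) - Ψ d) := by
        have h2 : T (g : V) = T (z' : V) + ((2 : ℚ_[2]) ^ n) • T (d : V) := by
          rw [hg, AddSubgroup.coe_add, map_add, AddSubgroup.coe_nsmul, hnsmul, map_smul]
          push_cast
          rfl
        have h3 : (Ψ g : V) = (Ψ z' : V) + ((2 : ℚ_[2]) ^ n) • (Ψ d : V) := by
          rw [hg, map_add, AddSubgroup.coe_add, map_nsmul, AddSubgroup.coe_nsmul, hnsmul]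
          push_cast
          rfl
        rw [h2, h3, hz'2, smul_sub]
        abel
      rw [h1]
      have h4 := ballR_smul ((2 : ℚ_[2]) ^ n)
        (ballR_sub ((ball_iff _).mp (hT1 _ d.2.2)) ((ball_iff _).mp (Ψ d).2.2))
      rw [norm_two_pow, mul_one] at h4
      exact h4
    -- each such operator is a combination of words
    have hword : ∀ T : Module.End ℚ_[2] V, Adm T → (∀ g : G, T (g : V) ∈ G) →
        ∃ i, T ∈ Algebra.adjoin ℚ (Prod.snd '' (f i).O) := by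
      intro T hT hTG
      obtain ⟨i, -, hi⟩ := htask 0 0 T hT
      refine ⟨i, ?_⟩
      rcases hi with ⟨v, hv, hTv⟩ | ⟨r, hr, hre⟩
      · exfalso
        obtain ⟨C, hC1, hC⟩ := V_bounded v
        obtain ⟨N, hN⟩ := exists_pow_lt_of_lt_one (inv_pos.mpr (lt_of_lt_of_le one_pos hC1))
          (by norm_num : (1 / 2 : ℝ) < 1)
        have hvG : ((2 : ℚ_[2]) ^ N) • v ∈ G := by
          refine (hG _).mpr ⟨hHtwo N v ⟨i, hv⟩, ?_⟩
          have h1 := ballR_smul ((2 : ℚ_[2]) ^ N) (x := v) (ε := C) hC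
          intro b
          refine (h1 b).trans ?_
          rw [norm_two_pow]
          have := mul_lt_mul_of_pos_right hN (lt_of_lt_of_le one_pos hC1)
          rw [inv_mul_cancel₀ (ne_of_gt (lt_of_lt_of_le one_pos hC1))] at this
          exact this.le
        have h2 := (hTG ⟨_, hvG⟩).1
        have h3 := hHtwo' N _ h2
        rw [map_smul, smul_smul, inv_mul_cancel₀ (two_pow_ne N), one_smul] at h3
        exact hHG _ h3 i hTv
      · have h1 : Bdd r := bdd_adjoin _ (by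
          rintro _ ⟨o, ho, rfl⟩
          exact (hgood i).adm o ho) r hr
        have h2 : T = r := bdd_ext T r (bdd_of_adm hT) h1 (fun b => hre _ ⟨b, rfl⟩)
        rw [h2]; exact hr
    obtain ⟨T, hT1, hT2⟩ := hext Φ.toAddMonoidHom
    obtain ⟨T', hT'1, hT'2⟩ := hext Φ.symm.toAddMonoidHom
    obtain ⟨i, hi⟩ := hword T hT1 (fun g => by rw [hT2]; exact (Φ g).2)
    obtain ⟨j, hj⟩ := hword T' hT'1 (fun g => by rw [hT'2]; exact (Φ.symm g).2)
    have hi' : T ∈ Algebra.adjoin ℚ (Prod.snd '' (f (max i j)).O) :=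
      Algebra.adjoin_mono (Set.image_mono (hmono (le_max_left i j)).1) hi
    have hj' : T' ∈ Algebra.adjoin ℚ (Prod.snd '' (f (max i j)).O) :=
      Algebra.adjoin_mono (Set.image_mono (hmono (le_max_right i j)).1) hj
    have hTT : T * T' = 1 := by
      apply adm_ext _ _ (adm_mul hT1 hT'1) adm_one
      intro b
      have h1 : T' (e b) = ((Φ.symm ⟨e b, heH b, e_ball b⟩ : G) : V) :=
        hT'2 ⟨e b, heH b, e_ball b⟩
      have h2 : T ((Φ.symm ⟨e b, heH b, e_ball b⟩ : G) : V) =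
          ((Φ (Φ.symm ⟨e b, heH b, e_ball b⟩) : G) : V) := hT2 _
      rw [Module.End.mul_apply, h1, h2, AddEquiv.apply_symm_apply]
      rfl
    obtain ⟨c, hc1, hc2, hc3⟩ := hsize (max i j)
    obtain ⟨k, hk⟩ := unit_scalar (hgood (max i j)) lam_indep c hc1
      (by rw [mk_labels]; exact hc2) hc3 (e []) (e_ne_zero []) T T' hi' hj' hTT
    have h1 : e [0] = k • e [] := by
      rw [← hk]
      have h2 : T (x0 : V) = ((Φ x0 : G) : V) := hT2 x0
      rw [hΦ] at h2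
      exact h2.symm
    have h2 := congrArg (fun y : V => (y : List ℕ → ℚ_[2]) [0]) h1
    simp only [Submodule.coe_smul, Pi.smul_apply] at h2
    rw [e_self, e_ne [] [0] (by simp), smul_zero] at h2
    exact one_ne_zero h2

end Pool.Agent.Lib.MP_e12dda_al
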