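import Pool.Agent.Lib.MP_e12dda_al.Fresh

set_option autoImplicit false

namespace Pool.Agent.Lib.MP_e12dda_al

open Cardinal Module

/-- A stage of the construction: labelled operators, a subspace, a set of excluded vectors. -/
structure St (F K V S : Type) [Field F] [Field K] [AddCommGroup V] [Module K V]
    [Module F V] where
  O : Set (S × Module.End K V)
  H : Submodule F V
  G : Set V

section st

variable {F K : Type} [Field F] [Field K] [Algebra F K] {V : Type} [AddCommGroup V] [Module K V]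
  [Module F V] [IsScalarTower F K V] {J S : Type}

instance : Preorder (St F K V S) where
  le a b := a.O ⊆ b.O ∧ a.H ≤ b.H ∧ a.G ⊆ b.G
  le_refl a := ⟨subset_rfl, le_rfl, subset_rfl⟩
  le_trans a b c h1 h2 := ⟨h1.1.trans h2.1, h1.2.1.trans h2.2.1, h1.2.2.trans h2.2.2⟩

structure Good (κ : Basis J F K) (lam : S → Module.End K V) (Adm : Module.End K V → Prop)
    (E : Set V) (σ : St F K V S) : Prop where
  func : ∀ o ∈ σ.O, ∀ o' ∈ σ.O, o.1 = o'.1 → o = o'
  adm : ∀ o ∈ σ.O, Adm o.2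
  rk : ∀ o ∈ σ.O, ∃ c : V, ∀ y, ∃ k : K, o.2 y = lam o.1 y + k • c
  cl : ∀ o ∈ σ.O, ∀ h ∈ σ.H, o.2 h ∈ σ.H
  ld : LD κ σ.H
  disj : ∀ g ∈ σ.G, g ∉ σ.H
  base : E ⊆ σ.H

def Sz (σ : St F K V S) (c : Cardinal.{0}) : Prop := #σ.O ≤ c ∧ #σ.H ≤ c ∧ #σ.G ≤ c

theorem setup {κ : Basis J F K} {lam : S → Module.End K V} {Adm : Module.End K V → Prop}
    {E : Set V} {σ : St F K V S} (hσ : Good κ lam Adm E σ) (c : Cardinal.{0}) (hc : ℵ₀ ≤ c)
    (hsz : Sz σ c) (T : Set (Module.End K V)) (hT : #T ≤ c) (Z : Set V) (hZ : #Z ≤ c) :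
    ∃ D : Submodule K V, (∀ h ∈ σ.H, h ∈ D) ∧ (∀ g ∈ σ.G, g ∈ D) ∧ (∀ z ∈ Z, z ∈ D) ∧
      (∀ t ∈ T, ∀ d ∈ D, t d ∈ D) ∧ (∀ o ∈ σ.O, ∀ d ∈ D, lam o.1 d ∈ D) ∧
      (∀ o ∈ σ.O, ∀ d ∈ D, o.2 d ∈ D) ∧ (∀ o ∈ σ.O, ∀ y, o.2 y - lam o.1 y ∈ D) ∧
      Module.rank K D ≤ c := by
  classical
  have hrk : ∀ o : σ.O, ∃ c : V, ∀ y, ∃ k : K, (o : S × Module.End K V).2 y =
    lam (o : S × Module.End K V).1 y + k • c := fun o => hσ.rk o o.2
  choose cv hcv using hrk
  let T' : Set (Module.End K V) := T ∪ (Set.range (fun o : σ.O => lam (o : S × Module.End K V).1) ∪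
    Set.range (fun o : σ.O => (o : S × Module.End K V).2))
  let Z' : Set V := (σ.H : Set V) ∪ (σ.G ∪ (Z ∪ Set.range cv))
  have hadd : ∀ {α : Type} (A B : Set α), #A ≤ c → #B ≤ c → #(A ∪ B : Set α) ≤ c := by
    intro α A B hA hB
    exact (mk_union_le A B).trans ((add_le_add hA hB).trans (add_eq_self hc).le)
  have hT' : #T' ≤ c :=
    hadd _ _ hT (hadd _ _ (mk_range_le.trans hsz.1) (mk_range_le.trans hsz.1))
  have hZ' : #Z' ≤ c := hadd _ _ hsz.2.1 (hadd _ _ hsz.2.2 (hadd _ _ hZ (mk_range_le.trans hsz.1)))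
  obtain ⟨D, hD1, hD2, hD3⟩ := exists_D T' Z' c hc hT' hZ'
  refine ⟨D, ?_, ?_, ?_, ?_, ?_, ?_, ?_, hD3⟩
  · intro h hh; exact hD1 (Or.inl hh)
  · intro g hg; exact hD1 (Or.inr (Or.inl hg))
  · intro z hz; exact hD1 (Or.inr (Or.inr (Or.inl hz)))
  · intro t ht d hd; exact hD2 t (Or.inl ht) d hd
  · intro o ho d hd; exact hD2 _ (Or.inr (Or.inl ⟨⟨o, ho⟩, rfl⟩)) d hd
  · intro o ho d hd; exact hD2 _ (Or.inr (Or.inr ⟨⟨o, ho⟩, rfl⟩)) d hd
  · intro o ho y
    obtain ⟨k, hk⟩ := hcv ⟨o, ho⟩ y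
    simp only at hk
    rw [hk, add_sub_cancel_left]
    exact D.smul_mem _ (hD1 (Or.inr (Or.inr (Or.inr ⟨⟨o, ho⟩, rfl⟩))))

/-- core step of all the independence arguments -/
theorem core {κ : Basis J F K} {lam : S → Module.End K V} {Adm : Module.End K V → Prop}
    {E : Set V} {σ : St F K V S} (hσ : Good κ lam Adm E σ) (hlam : IndepOps lam)
    (D : Submodule K V) (hD1 : ∀ o ∈ σ.O, ∀ d ∈ D, lam o.1 d ∈ D)
    (hD3 : ∀ o ∈ σ.O, ∀ y, o.2 y - lam o.1 y ∈ D)
    (s : S) (hs : ∀ o ∈ σ.O, s ≠ o.1) (L' : Submodule K V) (hL1 : ∀ y, lam s y ∈ L')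
    (hL2 : ∀ o ∈ σ.O, ∀ y ∈ L', lam o.1 y ∈ L') (hdis : Disjoint L' D)
    (x : V) (w : σ.O →₀ V) (hw : ∀ o, w o ∈ D ⊔ L')
    (hx : lam s x + w.sum (fun o v => (o : S × Module.End K V).2 v) ∈ D) :
    x = 0 ∧ ∀ o, w o ∈ D := by
  classical
  obtain ⟨E', hE1, hE2⟩ := hdis.symm.exists_isCompl
  let π : V →ₗ[K] V := L'.projection E' hE2.symm
  have hπ1 : ∀ v, π v ∈ L' := fun v => Submodule.projection_apply_mem _ _
  have hπD : ∀ v ∈ D, π v = 0 := fun v hv => by
    simp only [π]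
    rw [Submodule.projection_apply_eq_zero_iff]
    exact hE1 hv
  have hπL : ∀ v ∈ L', π v = v := fun v hv =>
    Submodule.projection_apply_of_mem_left hE2.symm hv
  have hπ2 : ∀ v ∈ D ⊔ L', v - π v ∈ D := by
    intro v hv
    obtain ⟨d, hd, l, hl, rfl⟩ := Submodule.mem_sup.mp hv
    rw [map_add, hπD d hd, hπL l hl]
    simpa using hd
  let w' : σ.O →₀ V := w.mapRange π (map_zero π)
  have h1 : w'.sum (fun o v => lam (o : S × Module.End K V).1 v) =
      w.sum (fun o v => lam (o : S × Module.End K V).1 (π v)) := by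
    simp only [w']
    rw [Finsupp.sum_mapRange_index]
    intro a; simp
  have h2 : w.sum (fun o v => (o : S × Module.End K V).2 v) -
      w'.sum (fun o v => lam (o : S × Module.End K V).1 v) ∈ D := by
    rw [h1, Finsupp.sum, Finsupp.sum, ← Finset.sum_sub_distrib]
    refine Submodule.sum_mem _ ?_
    intro o _
    have h3 : (o : S × Module.End K V).2 (w o) - lam (o : S × Module.End K V).1 (π (w o)) =
        ((o : S × Module.End K V).2 (w o) - lam (o : S × Module.End K V).1 (w o)) +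
        lam (o : S × Module.End K V).1 (w o - π (w o)) := by
      rw [map_sub]; abel
    rw [h3]
    exact D.add_mem (hD3 o o.2 _) (hD1 o o.2 _ (hπ2 _ (hw o)))
  have h4 : lam s x + w'.sum (fun o v => lam (o : S × Module.End K V).1 v) ∈ D := by
    have := D.sub_mem hx h2
    convert this using 1
    abel
  have h5 : lam s x + w'.sum (fun o v => lam (o : S × Module.End K V).1 v) ∈ L' := by
    refine L'.add_mem (hL1 x) ?_
    refine Submodule.sum_mem _ ?_
    intro o _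
    apply hL2 o o.2
    simp only [w', Finsupp.mapRange_apply]
    exact hπ1 _
  have h6 : lam s x + w'.sum (fun o v => lam (o : S × Module.End K V).1 v) = 0 :=
    (Submodule.disjoint_def.mp hdis) _ h5 h4
  have h7 := indep_one lam hlam s (fun o : σ.O => (o : S × Module.End K V).1)
    (fun a b hab => Subtype.ext (hσ.func a a.2 b b.2 hab)) (fun b => hs b b.2) x w' h6
  refine ⟨h7.1, ?_⟩
  intro o
  have h8 : π (w o) = 0 := by
    have := DFunLike.congr_fun h7.2 o
    simpa [w'] using this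
  have := hπ2 _ (hw o)
  rwa [h8, sub_zero] at this

theorem Ev_mem {C L : Type} [AddCommGroup C] [Module K C] (op : L → Module.End K V)
    (root : C →ₗ[K] V) (M : Submodule K V) (h1 : ∀ c, root c ∈ M)
    (h2 : ∀ o, ∀ v ∈ M, op o v ∈ M) (z : List L →₀ C) : Ev op root z ∈ M := by
  classical
  have h3 : ∀ (r : List L) (v : V), v ∈ M → (r.map op).prod v ∈ M := by
    intro r
    induction r with
    | nil => intro v hv; simpa using hv
    | cons o r ih =>
      intro v hv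
      rw [List.map_cons, List.prod_cons]
      exact h2 o _ (ih v hv)
  induction z using Finsupp.induction_linear with
  | zero => rw [map_zero]; exact M.zero_mem
  | add f g hf hg => rw [map_add]; exact M.add_mem hf hg
  | single a b => rw [Ev_single]; exact h3 a _ (h1 b)

theorem mk_sup_le {C L : Type} [AddCommGroup C] [Module K C] [Module F C] [IsScalarTower F K C]
    (op : L → Module.End K V) (root : C →ₗ[K] V) (CF : Submodule F C) (H : Submodule F V)
    (c : Cardinal.{0}) (hc : ℵ₀ ≤ c) (hH : #H ≤ c) (hL : #L ≤ c) (hCF : #CF ≤ c) :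
    #(H ⊔ Wsub op root CF : Submodule F V) ≤ c := by
  classical
  have h0 : #(H × (List L →₀ CF)) ≤ c :=
    mk_prod_le' c hc hH (mk_finsupp_le' c hc (mk_list_le' c hc hL) hCF)
  refine le_trans ?_ h0
  let g : H × (List L →₀ CF) → V := fun p =>
    (p.1 : V) + Ev op root (p.2.mapRange (Subtype.val) rfl)
  have hg : ((H ⊔ Wsub op root CF : Submodule F V) : Set V) ⊆ Set.range g := by
    intro v hv
    obtain ⟨a, ha, b, ⟨w, hw, rfl⟩, hab⟩ := Submodule.mem_sup.mp hv
    refine ⟨(⟨a, ha⟩, Finsupp.onFinset w.support (fun r => ⟨w r, hw r⟩) ?_), ?_⟩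
    · intro r hr
      simp only [ne_eq, Subtype.ext_iff] at hr
      simpa using hr
    · simp only [g]
      rw [← hab]
      congr 2
      ext r
      simp
  exact (mk_le_mk_of_subset hg).trans mk_range_le

end st

end Pool.Agent.Lib.MP_e12dda_al
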