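import Pool.Agent.Lib.MP_e12dda_al.States

set_option autoImplicit false

namespace Pool.Agent.Lib.MP_e12dda_al

open Cardinal Module

section stepA

variable {F K : Type} [Field F] [Field K] [Algebra F K] {V : Type} [AddCommGroup V] [Module K V]
  [Module F V] [IsScalarTower F K V] {J S : Type}

theorem stepA {κ : Basis J F K} {lam : S → Module.End K V} {Adm : Module.End K V → Prop}
    {E : Set V} {σ : St F K V S} (hσ : Good κ lam Adm E σ) (hlam : IndepOps lam)
    (c : Cardinal.{0}) (hc : ℵ₀ ≤ c) (hcS : c < #S) (hsz : Sz σ c)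
    (a b : V) (ha : a ∈ σ.H) (hb : b ∈ σ.H) (f : V →ₗ[K] K) (hfa : f a = 1)
    (hadm : ∀ s, Adm (lam s + f.smulRight (b - lam s a))) :
    ∃ σ' : St F K V S, Good κ lam Adm E σ' ∧ σ ≤ σ' ∧ Sz σ' c ∧ ∃ o ∈ σ'.O, o.2 a = b := by
  classical
  obtain ⟨D, hDH, hDG, -, -, hD1, hD2, hD3, hDrk⟩ := setup hσ c hc hsz ∅ (by simp) ∅ (by simp)
  obtain ⟨s, hsU, L', hL1, hL2, hdis⟩ := exists_fresh lam hlam (Prod.fst '' σ.O) D c hc
    (mk_image_le.trans hsz.1) hDrk hcS
  have hs : ∀ o ∈ σ.O, s ≠ o.1 := fun o ho h => hsU ⟨o, ho, h.symm⟩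
  have hL2' : ∀ o ∈ σ.O, ∀ y ∈ L', lam o.1 y ∈ L' := fun o ho => hL2 _ ⟨o, ho, rfl⟩
  let ρ : Module.End K V := lam s + f.smulRight (b - lam s a)
  have hρ : ∀ y, ρ y = lam s (y - f y • a) + f y • b := by
    intro y
    simp only [ρ, LinearMap.add_apply, LinearMap.smulRight_apply, map_sub, map_smul, smul_sub]
    abel
  have hρa : ρ a = b := by rw [hρ, hfa]; simp
  have ha0 : a ≠ 0 := by
    rintro rfl
    rw [map_zero] at hfa
    exact zero_ne_one hfa
  -- complement
  obtain ⟨q, hq⟩ := Submodule.exists_isCompl (Submodule.span F {a} : Submodule F V)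
  let 𝓒 : Submodule F V := q ⊓ σ.H
  have hdecomp : ∀ h ∈ σ.H, ∃ (t : F) (y : V), y ∈ 𝓒 ∧ h = t • a + y := by
    intro h hh
    have : h ∈ (Submodule.span F {a} ⊔ q : Submodule F V) := by rw [hq.sup_eq_top]; trivial
    obtain ⟨u, hu, y, hy, huy⟩ := Submodule.mem_sup.mp this
    obtain ⟨t, rfl⟩ := Submodule.mem_span_singleton.mp hu
    refine ⟨t, y, ⟨hy, ?_⟩, huy.symm⟩
    have : y = h - t • a := by rw [← huy]; abel
    rw [this]
    exact σ.H.sub_mem hh (σ.H.smul_mem _ ha)
  have hCa : ∀ (t : F), t • a ∈ 𝓒 → t • a = 0 := by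
    intro t ht
    exact (Submodule.disjoint_def.mp hq.disjoint) _
      (Submodule.smul_mem _ _ (Submodule.mem_span_singleton_self a)) ht.1
  let CK : Submodule K V := Submodule.span K (𝓒 : Set V)
  have hCKD : ∀ y ∈ CK, y ∈ D := by
    intro y hy
    have : CK ≤ D := Submodule.span_le.mpr (fun y hy => hDH _ hy.2)
    exact this hy
  have hCKa : ∀ (k : K) (y : V), y ∈ CK → y = k • a → y = 0 := by
    intro k y hy hyk
    obtain ⟨z, hz, rfl⟩ := exists_of_mem_span κ 𝓒 y hy
    have h1 : Tk (κ : J → K) (z - (κ.repr k).mapRange (fun q : F => q • a) (zero_smul F a)) = 0 := by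
      rw [map_sub, Tk_repr_smul, hyk, sub_self]
    have h2 := hσ.ld _ (fun j => by
      simp only [Finsupp.sub_apply, Finsupp.mapRange_apply]
      exact σ.H.sub_mem (hz j).2 (σ.H.smul_mem _ ha)) h1
    have h3 : z = 0 := by
      ext j
      have h4 := DFunLike.congr_fun h2 j
      simp only [Finsupp.sub_apply, Finsupp.mapRange_apply, Finsupp.coe_zero, Pi.zero_apply] at h4
      have h5 := sub_eq_zero.mp h4
      rw [h5]
      exact hCa _ (h5 ▸ hz j)
    rw [h3, map_zero]
  let CF : Submodule F CK := (𝓒.comap ((Submodule.subtype CK).restrictScalars F))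
  have hCF : ∀ y : CK, y ∈ CF ↔ (y : V) ∈ 𝓒 := fun y => Iff.rfl
  have hCFld : LD κ CF := by
    intro z hz h
    have h1 := hσ.ld (z.mapRange (Submodule.subtype CK) (map_zero _)) (fun j => by
      simp only [Finsupp.mapRange_apply]
      exact ((hCF _).mp (hz j)).2) (by rw [← Tk_map, h, map_zero])
    ext j
    have := DFunLike.congr_fun h1 j
    simpa using this
  let O' : Set (S × Module.End K V) := insert (s, ρ) σ.O
  have hsO : (s, ρ) ∉ σ.O := fun h => hs _ h rfl
  let op : O' → Module.End K V := fun o => (o : S × Module.End K V).2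
  let root : CK →ₗ[K] V := ρ ∘ₗ CK.subtype
  let o0 : O' := ⟨(s, ρ), Or.inl rfl⟩
  let incl : σ.O → O' := fun o => ⟨o, Or.inr o.2⟩
  have hincl : Function.Injective incl := fun x y hxy => Subtype.ext (by
    have := congrArg (Subtype.val) hxy
    exact this)
  have hEvM : ∀ z, Ev op root z ∈ D ⊔ L' := by
    have hρM : ∀ y, ρ y ∈ D ⊔ L' := by
      intro y
      rw [hρ, add_comm]
      exact Submodule.add_mem_sup (D.smul_mem _ (hDH _ hb)) (hL1 _)
    refine Ev_mem op root (D ⊔ L') (fun y => hρM _) ?_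
    rintro ⟨o, ho⟩ v hv
    rcases ho with rfl | ho
    · exact hρM v
    · obtain ⟨d, hd, l, hl, rfl⟩ := Submodule.mem_sup.mp hv
      have : op ⟨o, Or.inr ho⟩ (d + l) = (o.2 d + (o.2 l - lam o.1 l)) + lam o.1 l := by
        simp only [op, map_add]; abel
      rw [this]
      exact Submodule.add_mem_sup (D.add_mem (hD2 o ho d hd) (hD3 o ho l)) (hL2' o ho l hl)
  have hkey : ∀ z, Ev op root z ∈ D → z = 0 := by
    apply key
    intro y w hw hyw
    let w' : σ.O →₀ V := w.comapDomain incl hincl.injOn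
    have hw'1 : ∀ o, w' o = w (incl o) := fun o => rfl
    have hsplit : w = Finsupp.single o0 (w o0) + w'.mapDomain incl := by
      ext o
      obtain ⟨o, ho⟩ := o
      rcases ho with rfl | ho
      · rw [Finsupp.add_apply, Finsupp.mapDomain_of_notMem_range]
        · simp [o0]
        · rintro ⟨o', ho'⟩
          have := congrArg Subtype.val ho'
          simp only [incl] at this
          exact hsO (this ▸ o'.2)
      · have h1 : (⟨o, Or.inr ho⟩ : O') = incl ⟨o, ho⟩ := rfl
        rw [h1, Finsupp.add_apply, Finsupp.mapDomain_apply hincl, hw'1, Finsupp.single_apply,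
          if_neg, zero_add]
        intro h
        have := congrArg Subtype.val h
        simp only [incl, o0] at this
        exact hsO (this ▸ ho)
    have hsum : w.sum (fun o v => op o v) = ρ (w o0) +
        w'.sum (fun o v => (o : S × Module.End K V).2 v) := by
      conv_lhs => rw [hsplit]
      rw [Finsupp.sum_add_index' (by simp) (by simp), Finsupp.sum_single_index (by simp),
        Finsupp.sum_mapDomain_index (by simp) (by simp)]
    have h1 : lam s ((y + w o0) - f (y + w o0) • a) +
        w'.sum (fun o v => (o : S × Module.End K V).2 v) ∈ D := by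
      have h2 : root y + w.sum (fun o v => op o v) = (lam s ((y + w o0) - f (y + w o0) • a) +
          w'.sum (fun o v => (o : S × Module.End K V).2 v)) + f (y + w o0) • b := by
        rw [hsum]
        have h3 : root y + ρ (w o0) = ρ (y + w o0) := by
          rw [map_add]; rfl
        rw [← add_assoc, h3, hρ]
        abel
      rw [h2] at hyw
      exact (Submodule.add_mem_iff_left _ (D.smul_mem _ (hDH _ hb))).mp hyw
    obtain ⟨h4, h5⟩ := core hσ hlam D hD1 hD3 s hs L' hL1 hL2' hdis _ w'
      (fun o => by rw [hw'1]; obtain ⟨z, hz⟩ := hw (incl o); rw [hz]; exact hEvM z) h1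
    have h6 : w o0 ∈ D := by
      have h7 : w o0 = f (y + w o0) • a - y := by
        have := sub_eq_zero.mp h4
        rw [← this]; abel
      rw [h7]
      exact D.sub_mem (D.smul_mem _ (hDH _ ha)) (hCKD _ y.2)
    refine ⟨?_, ?_⟩
    · rintro ⟨o, ho⟩
      rcases ho with rfl | ho
      · exact h6
      · exact h5 ⟨o, ho⟩
    · intro hall
      rw [hall o0, add_zero] at h4
      have h8 := hCKa (f y) y y.2 (sub_eq_zero.mp h4)
      exact Subtype.ext h8
  let σ' : St F K V S := ⟨O', σ.H ⊔ Wsub op root CF, σ.G⟩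
  have hcl : ∀ o ∈ O', ∀ h ∈ σ.H ⊔ Wsub op root CF, o.2 h ∈ σ.H ⊔ Wsub op root CF := by
    intro o ho h hh
    obtain ⟨u, hu, w, hw, rfl⟩ := Submodule.mem_sup.mp hh
    rw [map_add]
    refine Submodule.add_mem _ ?_ ?_
    · rcases ho with rfl | ho
      · obtain ⟨t, y, hy, rfl⟩ := hdecomp u hu
        have h1 : (s, ρ).2 (t • a + y) = t • b + ρ y := by
          rw [map_add]
          congr 1
          rw [← algebraMap_smul K t a, map_smul]
          simp only
          rw [hρa, algebraMap_smul]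
        rw [h1]
        refine Submodule.add_mem_sup (σ.H.smul_mem _ hb) ?_
        have : ρ y = root ⟨y, Submodule.subset_span hy⟩ := rfl
        rw [this]
        exact root_mem_Wsub op root CF _ hy
      · exact Submodule.mem_sup_left (hσ.cl o ho u hu)
    · exact Submodule.mem_sup_right (op_mem_Wsub op root CF ⟨o, ho⟩ w hw)
  refine ⟨σ', ⟨?_, ?_, ?_, hcl, ?_, ?_, ?_⟩, ⟨?_, ?_, ?_⟩, ⟨?_, ?_, ?_⟩, (s, ρ), Or.inl rfl, hρa⟩
  · intro o ho o' ho' hoo
    rcases ho with rfl | ho
    · rcases ho' with rfl | ho'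
      · rfl
      · exact absurd hoo (hs o' ho')
    · rcases ho' with rfl | ho'
      · exact absurd hoo.symm (hs o ho)
      · exact hσ.func o ho o' ho' hoo
  · intro o ho
    rcases ho with rfl | ho
    · exact hadm s
    · exact hσ.adm o ho
  · intro o ho
    rcases ho with rfl | ho
    · exact ⟨b - lam s a, fun y => ⟨f y, rfl⟩⟩
    · exact hσ.rk o ho
  · exact LD_sup κ op root CF hCFld σ.H hσ.ld D hDH hkey
  · intro g hg
    exact notMem_sup op root CF σ.H D hDH hkey g (hDG g hg) (hσ.disj g hg)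
  · exact hσ.base.trans (fun x hx => Submodule.mem_sup_left hx)
  · exact fun x hx => Or.inr hx
  · exact le_sup_left
  · exact subset_rfl
  · refine mk_insert_le.trans ?_
    exact (add_le_add hsz.1 ((one_le_aleph0).trans hc)).trans (add_eq_self hc).le
  · refine mk_sup_le op root CF σ.H c hc hsz.2.1 ?_ ?_
    · refine mk_insert_le.trans ?_
      exact (add_le_add hsz.1 ((one_le_aleph0).trans hc)).trans (add_eq_self hc).le
    · refine le_trans ?_ hsz.2.1
      refine mk_le_of_injective (f := fun y : CF => (⟨((y : CK) : V), ((hCF _).mp y.2).2⟩ : σ.H)) ?_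
      intro x y hxy
      have := congrArg Subtype.val hxy
      exact Subtype.ext (Subtype.ext this)
  · exact hsz.2.2

end stepA

end Pool.Agent.Lib.MP_e12dda_al
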