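import Mathlib

set_option autoImplicit false

namespace Pool.Agent.Lib.MP_e12dda_al

open Cardinal

section words

variable {K : Type} [Field K] {V : Type} [AddCommGroup V] [Module K V]
variable {C : Type} [AddCommGroup C] [Module K C] {L : Type}

/-- Evaluation of a finitely supported family of coefficients indexed by words. -/
noncomputable def Ev (op : L → Module.End K V) (root : C →ₗ[K] V) : (List L →₀ C) →ₗ[K] V :=
  Finsupp.lsum K (fun r : List L => ((r.map op).prod : Module.End K V) ∘ₗ root)

theorem Ev_single (op : L → Module.End K V) (root : C →ₗ[K] V) (r : List L) (c : C) :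
    Ev op root (Finsupp.single r c) = (r.map op).prod (root c) := by
  simp [Ev]

/-- the part of a family supported on nonempty words, sorted by first letter -/
noncomputable def consPart : (List L →₀ C) →ₗ[K] (L →₀ (List L →₀ C)) :=
  Finsupp.lsum K (fun r : List L => match r with
    | [] => 0
    | o :: r' => (Finsupp.lsingle o) ∘ₗ (Finsupp.lsingle r'))

theorem consPart_single_nil (c : C) :
    consPart (K := K) (Finsupp.single ([] : List L) c) = 0 := by
  simp [consPart]

theorem consPart_single_cons (o : L) (r : List L) (c : C) :
    consPart (K := K) (Finsupp.single (o :: r) c) = Finsupp.single o (Finsupp.single r c) := by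
  simp [consPart]

theorem consPart_apply (z : List L →₀ C) (o : L) (r : List L) :
    consPart (K := K) z o r = z (o :: r) := by
  classical
  induction z using Finsupp.induction_linear with
  | zero => simp
  | add f g hf hg => simp [hf, hg]
  | single a b =>
    cases a with
    | nil => rw [consPart_single_nil]; simp
    | cons o' r' =>
      rw [consPart_single_cons]
      by_cases h : o' = o
      · subst h
        simp [Finsupp.single_apply]
      · simp [Finsupp.single_apply, h]

theorem Ev_eq (op : L → Module.End K V) (root : C →ₗ[K] V) (z : List L →₀ C) :
    Ev op root z = root (z []) +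
      (consPart (K := K) z).sum (fun o w => op o (Ev op root w)) := by
  classical
  induction z using Finsupp.induction_linear with
  | zero => simp
  | add f g hf hg =>
    rw [map_add, hf, hg, map_add, Finsupp.sum_add_index']
    · simp only [Finsupp.add_apply, map_add]
      abel
    · intro a; simp
    · intro a b1 b2; simp
  | single a b =>
    cases a with
    | nil => rw [consPart_single_nil, Ev_single]; simp
    | cons o' r' =>
      rw [consPart_single_cons, Ev_single, Finsupp.sum_single_index (by simp), Ev_single]
      simp

theorem Ev_cons (op : L → Module.End K V) (root : C →ₗ[K] V) (o : L) (z : List L →₀ C) :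
    Ev op root (z.mapDomain (fun r => o :: r)) = op o (Ev op root z) := by
  classical
  induction z using Finsupp.induction_linear with
  | zero => simp
  | add f g hf hg =>
    rw [Finsupp.mapDomain_add, map_add, hf, hg, map_add, map_add]
  | single a b =>
    rw [Finsupp.mapDomain_single, Ev_single, Ev_single]
    simp

theorem eq_zero_of_parts (z : List L →₀ C) (h0 : z [] = 0)
    (h1 : ∀ o, consPart (K := K) z o = 0) : z = 0 := by
  ext r
  cases r with
  | nil => simpa using h0
  | cons o r =>
    rw [← consPart_apply (K := K), h1 o]; simp

/-- The key injectivity-modulo-`D` principle. -/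
theorem key (op : L → Module.End K V) (root : C →ₗ[K] V) (D : Submodule K V)
    (hstar : ∀ (y : C) (w : L →₀ V), (∀ o, ∃ z, w o = Ev op root z) →
      root y + w.sum (fun o v => op o v) ∈ D →
      (∀ o, w o ∈ D) ∧ ((∀ o, w o = 0) → y = 0)) :
    ∀ z, Ev op root z ∈ D → z = 0 := by
  classical
  have main : ∀ (n : ℕ) (z : List L →₀ C), (∀ r : List L, n ≤ r.length → z r = 0) →
      Ev op root z ∈ D → z = 0 := by
    intro n
    induction n with
    | zero =>
      intro z hz _
      ext r
      simpa using hz r (Nat.zero_le _)
    | succ n ih =>
      intro z hz hD
      let w : L →₀ V := (consPart (K := K) z).mapRange (Ev op root) (map_zero _)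
      have hw : ∀ o, w o = Ev op root (consPart (K := K) z o) := fun o => by
        simp [w]
      have hsum : w.sum (fun o v => op o v) =
          (consPart (K := K) z).sum (fun o w => op o (Ev op root w)) := by
        simp only [w]
        rw [Finsupp.sum_mapRange_index]
        intro a; simp
      rw [Ev_eq, ← hsum] at hD
      obtain ⟨h1, h2⟩ := hstar (z []) w (fun o => ⟨_, hw o⟩) hD
      have h3 : ∀ o, consPart (K := K) z o = 0 := by
        intro o
        apply ih
        · intro r hr
          rw [consPart_apply]
          exact hz _ (by simpa using hr)
        · rw [← hw]; exact h1 o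
      refine eq_zero_of_parts (K := K) z (h2 ?_) h3
      intro o
      rw [hw, h3 o]; simp
  intro z hz
  refine main (z.support.sup List.length + 1) z ?_ hz
  intro r hr
  by_contra hne
  have : r ∈ z.support := by simpa using hne
  have := Finset.le_sup (f := List.length) this
  omega

end words

end Pool.Agent.Lib.MP_e12dda_al
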